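import Pool.Agent.H86.Inertia.Spec

set_option autoImplicit false
set_option linter.unusedSectionVars false

/-!
# Eigenvalues of real symmetric matrices: plain facts
-/

namespace Pool.Agent.H86.Energy

open Matrix Finset Module
open Pool.Agent.H86.Inertia (qf qf_spectral)

variable {V : Type} [Fintype V] [DecidableEq V]

/-- A complete orthonormal system of eigenvectors `v i` with eigenvalues `l i`. -/
structure Eig (B : Matrix V V ℝ) (l : V → ℝ) (v : V → V → ℝ) : Prop where
  ent : ∀ x y, B x y = ∑ i, l i * (v i x * v i y)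
  orth : ∀ i j, ∑ x, v i x * v j x = if i = j then 1 else 0
  orth' : ∀ x y, ∑ i, v i x * v i y = if x = y then 1 else 0

lemma exists_eig {B : Matrix V V ℝ} (hB : B.IsHermitian) :
    Eig B hB.eigenvalues (fun i x => (hB.eigenvectorBasis i : V → ℝ) x) := by
  set U : Matrix V V ℝ := (hB.eigenvectorUnitary : Matrix V V ℝ) with hU
  have hUe : ∀ x i, U x i = (hB.eigenvectorBasis i : V → ℝ) x := fun x i => rfl
  have h1 : B = U * diagonal hB.eigenvalues * star U := by
    have := hB.spectral_theorem
    rw [Unitary.conjStarAlgAut_apply] at this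
    exact this
  have h2 : star U * U = 1 := Unitary.coe_star_mul_self hB.eigenvectorUnitary
  have h3 : U * star U = 1 := Unitary.coe_mul_star_self hB.eigenvectorUnitary
  refine ⟨?_, ?_, ?_⟩
  · intro x y
    conv_lhs => rw [h1]
    rw [mul_apply]
    apply sum_congr rfl
    intro i _
    rw [mul_diagonal, star_apply, star_trivial, hUe, hUe]
    ring
  · intro i j
    have := congrFun (congrFun h2 i) j
    rw [mul_apply, one_apply] at this
    rw [← this]
    apply sum_congr rfl
    intro x _
    rw [star_apply, star_trivial, hUe, hUe]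
  · intro x y
    have := congrFun (congrFun h3 x) y
    rw [mul_apply, one_apply] at this
    rw [← this]
    apply sum_congr rfl
    intro i _
    rw [star_apply, star_trivial, hUe, hUe]

namespace Eig

variable {B : Matrix V V ℝ} {l : V → ℝ} {v : V → V → ℝ}

lemma trace (h : Eig B l v) : ∑ x, B x x = ∑ i, l i := by
  have h1 : ∀ x, B x x = ∑ i, l i * (v i x * v i x) := fun x => h.ent x x
  rw [sum_congr rfl fun x _ => h1 x, sum_comm]
  apply sum_congr rfl
  intro i _
  rw [← mul_sum, h.orth, if_pos rfl, mul_one]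

lemma frob (h : Eig B l v) : ∑ x, ∑ y, (B x y) ^ 2 = ∑ i, (l i) ^ 2 := by
  have h1 : ∀ x y, (B x y) ^ 2 = ∑ i, ∑ j, l i * l j * ((v i x * v j x) * (v i y * v j y)) := by
    intro x y
    rw [h.ent x y, sq, sum_mul_sum]
    apply sum_congr rfl
    intro i _
    apply sum_congr rfl
    intro j _
    ring
  calc ∑ x, ∑ y, (B x y) ^ 2 = ∑ x, ∑ y, ∑ i, ∑ j, l i * l j * ((v i x * v j x) * (v i y * v j y)) :=
        sum_congr rfl fun x _ => sum_congr rfl fun y _ => h1 x y
    _ = ∑ i, ∑ j, ∑ x, ∑ y, l i * l j * ((v i x * v j x) * (v i y * v j y)) := by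
        rw [sum_congr rfl fun x _ => sum_comm, sum_comm]
        apply sum_congr rfl
        intro i _
        rw [sum_congr rfl fun x _ => sum_comm, sum_comm]
    _ = ∑ i, ∑ j, l i * l j * ((if i = j then 1 else 0) * (if i = j then 1 else 0)) := by
        apply sum_congr rfl
        intro i _
        apply sum_congr rfl
        intro j _
        rw [← h.orth i j, sum_mul_sum, mul_sum]
        apply sum_congr rfl
        intro x _
        rw [mul_sum]
    _ = ∑ i, (l i) ^ 2 := by
        apply sum_congr rfl
        intro i _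
        rw [sum_eq_single i]
        · simp
          ring
        · intro j _ hj
          rw [if_neg (Ne.symm hj)]
          ring
        · intro hh
          exact absurd (mem_univ i) hh

lemma qform (h : Eig B l v) (c : V → ℝ) : qf B c = ∑ i, l i * (∑ x, v i x * c x) ^ 2 := by
  unfold qf
  simp only [dotProduct, mulVec]
  have h1 : ∀ x, c x * ∑ y, B x y * c y = ∑ i, l i * (v i x * c x) * ∑ y, v i y * c y := by
    intro x
    rw [mul_sum]
    have : ∀ y, c x * (B x y * c y) = ∑ i, l i * (v i x * c x) * (v i y * c y) := by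
      intro y
      rw [h.ent x y, sum_mul, mul_sum]
      exact sum_congr rfl fun i _ => by ring
    rw [sum_congr rfl fun y _ => this y, sum_comm]
    exact sum_congr rfl fun i _ => by rw [mul_sum]
  rw [sum_congr rfl fun x _ => h1 x, sum_comm]
  apply sum_congr rfl
  intro i _
  rw [← sum_mul, ← mul_sum]
  ring

lemma norm (h : Eig B l v) (c : V → ℝ) : ∑ x, (c x) ^ 2 = ∑ i, (∑ x, v i x * c x) ^ 2 := by
  have h1 : ∀ i, (∑ x, v i x * c x) ^ 2 = ∑ x, ∑ y, (v i x * v i y) * (c x * c y) := by
    intro i
    rw [sq, sum_mul_sum]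
    exact sum_congr rfl fun x _ => sum_congr rfl fun y _ => by ring
  rw [sum_congr rfl fun i _ => h1 i, sum_comm]
  apply sum_congr rfl
  intro x _
  rw [sum_comm]
  have h2 : ∀ y, ∑ i, (v i x * v i y) * (c x * c y) = if x = y then c x * c y else 0 := by
    intro y
    rw [← sum_mul, h.orth']
    split_ifs <;> ring
  rw [sum_congr rfl fun y _ => h2 y, sum_ite_eq univ x]
  simp
  ring

end Eig

/-- Every subspace on which the form of `B + s` is negative definite has dimension at most `p`. -/
def NegS (B : Matrix V V ℝ) (s : ℝ) (p : ℕ) : Prop :=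
  ∀ E : Submodule ℝ (V → ℝ), (∀ x ∈ E, x ≠ 0 → qf B x + s * ∑ u, (x u) ^ 2 < 0) → finrank ℝ E ≤ p

/-- the linear map taking the coordinates in an eigensystem -/
def coords (v : V → V → ℝ) (I : Finset V) : (V → ℝ) →ₗ[ℝ] (I → ℝ) where
  toFun := fun c i => ∑ x, v (i : V) x * c x
  map_add' := by
    intro c d
    ext i
    simp only [Pi.add_apply]
    rw [← sum_add_distrib]
    exact sum_congr rfl fun x _ => by ring
  map_smul' := by
    intro t c
    ext i
    simp only [Pi.smul_apply, smul_eq_mul, RingHom.id_apply]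
    rw [mul_sum]
    exact sum_congr rfl fun x _ => by ring

lemma negS_of_count {B : Matrix V V ℝ} {l : V → ℝ} {v : V → V → ℝ} (h : Eig B l v) (s : ℝ) (p : ℕ)
    (σ : ℝ) (hp : (univ.filter (fun i => σ * l i < -s)).card ≤ p) : NegS (σ • B) s p := by
  intro E hE
  set I := univ.filter (fun i => σ * l i < -s) with hI
  have hinj : Function.Injective ((coords v I).domRestrict E) := by
    rw [← LinearMap.ker_eq_bot, LinearMap.ker_eq_bot']
    intro x hx
    by_contra hne
    have hne' : (x : V → ℝ) ≠ 0 := fun h => hne (Subtype.ext h)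
    have h1 := hE x x.2 hne'
    have h2 : qf (σ • B) (x : V → ℝ) = σ * qf B (x : V → ℝ) := by
      unfold qf
      rw [smul_mulVec, dotProduct_smul, smul_eq_mul]
    rw [h2, h.qform, h.norm, mul_sum, mul_sum, ← sum_add_distrib] at h1
    have h3 : 0 ≤ ∑ i, (σ * (l i * (∑ u, v i u * (x : V → ℝ) u) ^ 2) +
        s * (∑ u, v i u * (x : V → ℝ) u) ^ 2) := by
      apply sum_nonneg
      intro i _
      by_cases hi : σ * l i < -s
      · have h4 := congrFun hx ⟨i, by rw [hI]; simpa using hi⟩
        have h5 : ∑ u, v i u * (x : V → ℝ) u = 0 := h4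
        rw [h5]
        simp
      · push Not at hi
        have h6 : 0 ≤ (σ * l i + s) * (∑ u, v i u * (x : V → ℝ) u) ^ 2 :=
          mul_nonneg (by linarith) (sq_nonneg _)
        nlinarith
    linarith
  have h1 := LinearMap.finrank_le_finrank_of_injective hinj
  rw [finrank_fintype_fun_eq_card, Fintype.card_coe] at h1
  exact h1.trans hp

lemma count_of_negS {B : Matrix V V ℝ} {l : V → ℝ} {v : V → V → ℝ} (h : Eig B l v) (s : ℝ) (p : ℕ)
    (hN : NegS B s p) : (univ.filter (fun i => l i < -s)).card ≤ p := by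
  set I := univ.filter (fun i => l i < -s) with hI
  have hli : LinearIndependent ℝ (fun i : I => (v i : V → ℝ)) := by
    rw [Fintype.linearIndependent_iff]
    intro c hc j
    have h1 : ∑ x, (∑ i : I, c i • (v i : V → ℝ)) x * v j x = c j := by
      have h2 : ∀ x, (∑ i : I, c i • (v i : V → ℝ)) x * v j x = ∑ i : I, c i * (v i x * v j x) := by
        intro x
        rw [Finset.sum_apply, sum_mul]
        exact sum_congr rfl fun i _ => by simp only [Pi.smul_apply, smul_eq_mul]; ring
      rw [sum_congr rfl fun x _ => h2 x, sum_comm]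
      have h3 : ∀ i : I, ∑ x, c i * (v i x * v j x) = if i = j then c i else 0 := by
        intro i
        rw [← mul_sum, h.orth]
        by_cases hij : i = j
        · rw [if_pos hij, if_pos (by rw [hij]), mul_one]
        · rw [if_neg hij, if_neg (fun hh => hij (Subtype.ext hh)), mul_zero]
      rw [sum_congr rfl fun i _ => h3 i, sum_ite_eq' univ j]
      simp
    rw [hc] at h1
    simpa using h1.symm
  have h1 := finrank_span_eq_card hli
  rw [Fintype.card_coe] at h1
  rw [← h1]
  apply hN
  intro x hx hx0
  have h2 : ∀ j, j ∉ I → ∑ u, v j u * x u = 0 := by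
    intro j hj
    refine Submodule.span_induction (p := fun x _ => ∑ u, v j u * x u = 0) ?_ ?_ ?_ ?_ hx
    · rintro _ ⟨i, rfl⟩
      rw [h.orth, if_neg]
      rintro rfl
      exact hj i.2
    · simp
    · intro a b _ _ ha hb
      simp only [Pi.add_apply, mul_add, sum_add_distrib, ha, hb, add_zero]
    · intro t a _ ha
      have : ∑ u, v j u * (t • a) u = t * ∑ u, v j u * a u := by
        rw [mul_sum]
        exact sum_congr rfl fun u _ => by simp only [Pi.smul_apply, smul_eq_mul]; ring
      rw [this, ha, mul_zero]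
  rw [h.qform, h.norm, mul_sum, ← sum_add_distrib]
  have h3 : ∃ j, ∑ u, v j u * x u ≠ 0 := by
    by_contra hcon
    push Not at hcon
    have h4 := h.norm x
    have h6 : ∑ i, (∑ u, v i u * x u) ^ 2 = 0 := sum_eq_zero fun i _ => by rw [hcon i]; ring
    rw [h6] at h4
    apply hx0
    ext u
    have h5 := (sum_eq_zero_iff_of_nonneg (fun u _ => sq_nonneg (x u))).1 h4 u (mem_univ u)
    simpa using h5
  obtain ⟨j, hj⟩ := h3
  have hjI : j ∈ I := by
    by_contra hcon
    exact hj (h2 j hcon)
  have hle : ∀ i, l i * (∑ u, v i u * x u) ^ 2 + s * (∑ u, v i u * x u) ^ 2 ≤ 0 := by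
    intro i
    by_cases hi : i ∈ I
    · rw [hI, mem_filter] at hi
      have : 0 ≤ (-(l i + s)) * (∑ u, v i u * x u) ^ 2 := mul_nonneg (by linarith [hi.2]) (sq_nonneg _)
      nlinarith
    · rw [h2 i hi]
      simp
  have hlt : l j * (∑ u, v j u * x u) ^ 2 + s * (∑ u, v j u * x u) ^ 2 < 0 := by
    rw [hI, mem_filter] at hjI
    have : 0 < (-(l j + s)) * (∑ u, v j u * x u) ^ 2 :=
      mul_pos (by linarith [hjI.2]) (by positivity)
    nlinarith
  calc _ < ∑ _i : V, (0 : ℝ) := sum_lt_sum (fun i _ => hle i) ⟨j, mem_univ j, hlt⟩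
    _ = 0 := by simp

/-- the restriction of a matrix to `W` -/
def restr (B : Matrix V V ℝ) (W : Finset V) : Matrix V V ℝ :=
  fun x y => if x ∈ W ∧ y ∈ W then B x y else 0

lemma restr_herm {B : Matrix V V ℝ} (hB : B.IsHermitian) (W : Finset V) :
    (restr B W).IsHermitian := by
  ext x y
  rw [conjTranspose_apply, star_trivial]
  have h : B y x = B x y := by
    have := hB.apply x y
    simpa using this
  unfold restr
  by_cases hx : x ∈ W <;> by_cases hy : y ∈ W <;> simp [hx, hy, h]

lemma qf_restr (B : Matrix V V ℝ) (W : Finset V) (c : V → ℝ) :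
    qf (restr B W) c = qf B (fun x => if x ∈ W then c x else 0) := by
  unfold qf
  simp only [dotProduct, mulVec]
  apply sum_congr rfl
  intro x _
  by_cases hx : x ∈ W
  · simp only [hx, if_true]
    congr 1
    apply sum_congr rfl
    intro y _
    unfold restr
    by_cases hy : y ∈ W <;> simp [hx, hy]
  · simp only [hx, if_false, zero_mul]
    have : ∑ y, restr B W x y * c y = 0 := by
      apply sum_eq_zero
      intro y _
      unfold restr
      simp [hx]
    rw [this, mul_zero]

/-- the coordinate projection -/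
def cut (W : Finset V) : (V → ℝ) →ₗ[ℝ] (V → ℝ) where
  toFun := fun c x => if x ∈ W then c x else 0
  map_add' := by
    intro c d
    ext x
    simp only [Pi.add_apply]
    split_ifs <;> simp
  map_smul' := by
    intro t c
    ext x
    simp only [Pi.smul_apply, smul_eq_mul, RingHom.id_apply]
    split_ifs <;> simp

lemma NegS.restr {B : Matrix V V ℝ} {s : ℝ} {p : ℕ} (h : NegS B s p) (hs : 0 ≤ s) (W : Finset V) :
    NegS (restr B W) s p := by
  intro E hE
  have hcut : ∀ x : V → ℝ, ∑ u, (cut W x u) ^ 2 ≤ ∑ u, (x u) ^ 2 := by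
    intro x
    apply sum_le_sum
    intro u _
    show (if u ∈ W then x u else 0) ^ 2 ≤ _
    split_ifs
    · exact le_rfl
    · simp [sq_nonneg]
  have hform : ∀ x ∈ E, x ≠ 0 → qf B (cut W x) + s * ∑ u, (cut W x u) ^ 2 < 0 := by
    intro x hx hx0
    have h1 := hE x hx hx0
    rw [qf_restr] at h1
    have h2 := mul_le_mul_of_nonneg_left (hcut x) hs
    have h3 : qf B (cut W x) = qf B (fun u => if u ∈ W then x u else 0) := rfl
    linarith
  have hinj : Function.Injective ((cut W).domRestrict E) := by
    rw [← LinearMap.ker_eq_bot, LinearMap.ker_eq_bot']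
    intro x hx
    by_contra hne
    have hne' : (x : V → ℝ) ≠ 0 := fun h => hne (Subtype.ext h)
    have h1 := hform x x.2 hne'
    have h2 : cut W (x : V → ℝ) = 0 := hx
    rw [h2] at h1
    simp [qf] at h1
  have h1 : finrank ℝ E = finrank ℝ (E.map (cut W)) := by
    have h2 := LinearMap.finrank_range_of_inj hinj
    rw [← h2]
    have h3 : LinearMap.range ((cut W).domRestrict E) = E.map (cut W) := by
      rw [LinearMap.range_domRestrict]
    rw [h3]
  rw [h1]
  apply h
  rintro _ ⟨x, hx, rfl⟩ hx0
  apply hform x hx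
  rintro rfl
  exact hx0 (by simp)

end Pool.Agent.H86.Energy
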