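import Pool.Agent.H86.Energy.Zeros

set_option autoImplicit false
set_option linter.unusedSectionVars false

/-!
# A large subset of half the rank
-/

namespace Pool.Agent.H86.Energy

open Matrix Finset Module
open Pool.Agent.H974R3.RC (RW row_mem co_row_mem finrank_RW pure_of rho rho_mono rho_univ rho_halve)

variable {V : Type} [Fintype V] [DecidableEq V]

variable (G : SimpleGraph V) [DecidableRel G.Adj]

/-- the factor lost in one step -/
noncomputable def qq (R : ℕ) (κ : ℝ) : ℝ :=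
  64 * R * (8 * Real.exp (Real.log (16 * (R : ℝ) ^ 2) * (2 * κ))) ^ 2

set_option maxHeartbeats 1000000 in
theorem find (σ : ℝ) (hσ : σ * σ = 1) (s : ℝ) (hs : 0 ≤ s) (p : ℕ)
    (hN : NegS (σ • G.adjMatrix ℝ) s p) (R : ℕ) (hR : (G.adjMatrix ℝ).rank + 1 ≤ R)
    (S : Finset V) (κ : ℝ) (hκ : 0 < κ)
    (hE : 2 * (s * rho G S + Real.sqrt (min p (rho G S) : ℕ) * S.card) ≤ κ * S.card)
    (hq : qq R κ ≤ S.card) :
    ∃ Z ⊆ S, (S.card : ℝ) ≤ qq R κ * Z.card ∧ 2 * rho G Z ≤ rho G S + 2 := by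
  classical
  have hR1 : 1 ≤ R := by omega
  have hR1' : (1 : ℝ) ≤ R := by exact_mod_cast hR1
  have hR0 : (0 : ℝ) < R := by linarith
  set K : ℝ := 2 * κ with hK
  set t : ℝ := Real.log (16 * (R : ℝ) ^ 2) with ht
  have h16 : (1 : ℝ) ≤ 16 * (R : ℝ) ^ 2 := by nlinarith
  have ht0 : 0 ≤ t := Real.log_nonneg h16
  have het : Real.exp (-t) = 1 / (16 * (R : ℝ) ^ 2) := by
    rw [Real.exp_neg, ht, Real.exp_log (by linarith), one_div]
  set M : ℝ := 8 * Real.exp (t * K) with hM
  have hM0 : 0 < M := by positivity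
  have hqq : qq R κ = 64 * R * M ^ 2 := rfl
  have hS0 : (0 : ℝ) < S.card := by
    refine lt_of_lt_of_le ?_ hq
    rw [hqq]
    positivity
  obtain ⟨α, β, hab, hβα, hsum⟩ := rep G σ hσ s hs p hN S
  have hsum' : ∑ x ∈ S, ∑ i, (α x i) ^ 2 ≤ κ * S.card := hsum.trans hE
  -- the good vertices
  set S' := S.filter (fun x => ∑ i, (α x i) ^ 2 ≤ K) with hS'
  have hS'S : S' ⊆ S := filter_subset _ _
  have hbad : ((S \ S').card : ℝ) * K ≤ κ * S.card := by
    calc ((S \ S').card : ℝ) * K = ∑ x ∈ S \ S', K := by rw [sum_const, nsmul_eq_mul]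
      _ ≤ ∑ x ∈ S \ S', ∑ i, (α x i) ^ 2 := by
          apply sum_le_sum
          intro x hx
          rw [mem_sdiff, hS', mem_filter] at hx
          by_contra hcon
          push Not at hcon
          exact hx.2 ⟨hx.1, hcon.le⟩
      _ ≤ ∑ x ∈ S, ∑ i, (α x i) ^ 2 :=
          sum_le_sum_of_subset_of_nonneg sdiff_subset fun x _ _ => sum_nonneg fun i _ => sq_nonneg _
      _ ≤ _ := hsum'
  have hcS : ((S \ S').card : ℝ) + S'.card = S.card := by
    exact_mod_cast card_sdiff_add_card_eq_card hS'S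
  have hS'half : (S.card : ℝ) / 2 ≤ S'.card := by
    have h1 : ((S \ S').card : ℝ) ≤ S.card / 2 := by
      have h2 : ((S \ S').card : ℝ) * (2 * κ) ≤ (S.card / 2) * (2 * κ) := by
        rw [← hK]
        refine hbad.trans (le_of_eq ?_)
        rw [hK]
        ring
      exact le_of_mul_le_mul_right h2 (by positivity)
    linarith
  have hS'0 : (0 : ℝ) < S'.card := by linarith
  -- the rectangle
  obtain ⟨X, hX, Y, hY, hXY⟩ := rect S' G.Adj α β K t (4 * R) ht0 (by positivity) (by positivity)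
    (fun x hx => by
      rw [hS', mem_filter] at hx
      exact hx.2)
    (fun x hx => by
      rw [hS', mem_filter] at hx
      rw [hβα]
      exact hx.2)
    (fun x hx y hy => hab x (hS'S hx) y (hS'S hy))
  have hzer : (S'.card : ℝ) ^ 2 ≤ R * zer G S' := by
    refine (zer_ge G S').trans ?_
    apply mul_le_mul_of_nonneg_right
    · exact_mod_cast hR
    · unfold zer
      exact sum_nonneg fun x _ => sum_nonneg fun y _ => by split_ifs <;> norm_num
  have hlow : (S'.card : ℝ) ^ 2 / (4 * R) ≤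
      (1 / 2) * zer G S' - 4 * R * (S'.card : ℝ) ^ 2 * Real.exp (-t) := by
    rw [het]
    have h1 : 4 * R * (S'.card : ℝ) ^ 2 * (1 / (16 * (R : ℝ) ^ 2)) = (S'.card : ℝ) ^ 2 / (4 * R) := by
      field_simp
      norm_num
    rw [h1]
    have h2 : (S'.card : ℝ) ^ 2 / (4 * R) * 2 ≤ (1 / 2) * zer G S' := by
      have h3 : (S'.card : ℝ) ^ 2 / (4 * R) * 2 = (1 / 2) * ((S'.card : ℝ) ^ 2 / R) := by
        field_simp
        norm_num
      rw [h3]
      apply mul_le_mul_of_nonneg_left _ (by norm_num)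
      rw [div_le_iff₀ hR0]
      linarith
    linarith
  have hmain : (S'.card : ℝ) ^ 2 / (4 * R) ≤
      M ^ 2 * ∑ x ∈ X, ∑ y ∈ Y, if G.Adj x y then -(4 * (R : ℝ)) else 1 := hlow.trans hXY
  set Zx : ℝ := ∑ x ∈ X, ∑ y ∈ Y, if G.Adj x y then (0 : ℝ) else 1 with hZx
  set Ox : ℝ := ∑ x ∈ X, ∑ y ∈ Y, if G.Adj x y then (1 : ℝ) else 0 with hOx
  have hZO : Zx + Ox = X.card * Y.card := by
    rw [hZx, hOx, ← sum_add_distrib]
    have : ∀ x ∈ X, (∑ y ∈ Y, if G.Adj x y then (0 : ℝ) else 1) +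
        (∑ y ∈ Y, if G.Adj x y then (1 : ℝ) else 0) = Y.card := by
      intro x _
      rw [← sum_add_distrib]
      have h1 : ∀ y ∈ Y, ((if G.Adj x y then (0 : ℝ) else 1) + if G.Adj x y then (1 : ℝ) else 0) = 1 := by
        intro y _
        split_ifs <;> norm_num
      rw [sum_congr rfl h1]
      simp
    rw [sum_congr rfl this, sum_const, nsmul_eq_mul]
  have hw : ∑ x ∈ X, ∑ y ∈ Y, (if G.Adj x y then -(4 * (R : ℝ)) else 1) = Zx - 4 * R * Ox := by
    rw [hZx, hOx, mul_sum, ← sum_sub_distrib]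
    apply sum_congr rfl
    intro x _
    rw [mul_sum, ← sum_sub_distrib]
    apply sum_congr rfl
    intro y _
    split_ifs <;> ring
  rw [hw] at hmain
  have hOx0 : 0 ≤ Ox := by
    rw [hOx]
    exact sum_nonneg fun x _ => sum_nonneg fun y _ => by split_ifs <;> norm_num
  have hZx0 : 0 ≤ Zx := by
    rw [hZx]
    exact sum_nonneg fun x _ => sum_nonneg fun y _ => by split_ifs <;> norm_num
  have hM2 : 0 < M ^ 2 := by positivity
  have hpos : 0 < Zx - 4 * R * Ox := by
    have h1 : 0 < M ^ 2 * (Zx - 4 * R * Ox) := lt_of_lt_of_le (by positivity) hmain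
    exact (mul_pos_iff_of_pos_left hM2).1 h1
  have hZXY : Zx ≤ X.card * Y.card := by linarith
  have hXYle : (S'.card : ℝ) ^ 2 / (4 * R) ≤ M ^ 2 * (X.card * Y.card) := by
    refine hmain.trans (mul_le_mul_of_nonneg_left ?_ hM2.le)
    have : 0 ≤ 4 * R * Ox := by positivity
    linarith
  have hXc : (X.card : ℝ) ≤ S'.card := by exact_mod_cast card_le_card hX
  have hYc : (Y.card : ℝ) ≤ S'.card := by exact_mod_cast card_le_card hY
  have hXbig : (S'.card : ℝ) ≤ 4 * R * M ^ 2 * X.card := by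
    have h1 : (S'.card : ℝ) ^ 2 ≤ 4 * R * M ^ 2 * X.card * S'.card := by
      rw [div_le_iff₀ (by positivity)] at hXYle
      have h2 : (X.card : ℝ) * Y.card ≤ X.card * S'.card :=
        mul_le_mul_of_nonneg_left hYc (Nat.cast_nonneg _)
      have h3 : M ^ 2 * (X.card * Y.card) * (4 * R) ≤ M ^ 2 * (X.card * S'.card) * (4 * R) := by
        gcongr
      linarith
    rw [sq] at h1
    exact le_of_mul_le_mul_right h1 hS'0
  have hYbig : (S'.card : ℝ) ≤ 4 * R * M ^ 2 * Y.card := by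
    have h1 : (S'.card : ℝ) ^ 2 ≤ 4 * R * M ^ 2 * Y.card * S'.card := by
      rw [div_le_iff₀ (by positivity)] at hXYle
      have h2 : (X.card : ℝ) * Y.card ≤ S'.card * Y.card :=
        mul_le_mul_of_nonneg_right hXc (Nat.cast_nonneg _)
      have h3 : M ^ 2 * (X.card * Y.card) * (4 * R) ≤ M ^ 2 * (S'.card * Y.card) * (4 * R) := by
        gcongr
      linarith
    rw [sq] at h1
    exact le_of_mul_le_mul_right h1 hS'0
  have hY0 : (0 : ℝ) < Y.card := by
    by_contra hcon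
    have : (Y.card : ℝ) = 0 := le_antisymm (not_lt.1 hcon) (Nat.cast_nonneg _)
    rw [this, mul_zero] at hYbig
    linarith
  -- the clean rows
  set X1 := X.filter (fun x => (Y.filter (fun y => G.Adj x y)).card * (2 * R) ≤ Y.card) with hX1
  have hX1X : X1 ⊆ X := filter_subset _ _
  have hbadX : ((X \ X1).card : ℝ) * Y.card ≤ 2 * R * Ox := by
    have h1 : ∀ x ∈ X \ X1, (Y.card : ℝ) ≤ 2 * R * ∑ y ∈ Y, if G.Adj x y then (1 : ℝ) else 0 := by
      intro x hx
      rw [mem_sdiff, hX1, mem_filter] at hx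
      have h2 : ¬ (Y.filter (fun y => G.Adj x y)).card * (2 * R) ≤ Y.card := fun h => hx.2 ⟨hx.1, h⟩
      push Not at h2
      have h3 : (Y.card : ℝ) ≤ (Y.filter (fun y => G.Adj x y)).card * (2 * R) := by
        exact_mod_cast h2.le
      rw [sum_boole]
      linarith
    calc ((X \ X1).card : ℝ) * Y.card = ∑ x ∈ X \ X1, (Y.card : ℝ) := by
          rw [sum_const, nsmul_eq_mul]
      _ ≤ ∑ x ∈ X \ X1, 2 * R * ∑ y ∈ Y, (if G.Adj x y then (1 : ℝ) else 0) := sum_le_sum h1
      _ = 2 * R * ∑ x ∈ X \ X1, ∑ y ∈ Y, (if G.Adj x y then (1 : ℝ) else 0) := by rw [mul_sum]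
      _ ≤ 2 * R * Ox := by
          apply mul_le_mul_of_nonneg_left _ (by positivity)
          exact sum_le_sum_of_subset_of_nonneg sdiff_subset fun x _ _ =>
            sum_nonneg fun y _ => by split_ifs <;> norm_num
  have hcX : ((X \ X1).card : ℝ) + X1.card = X.card := by
    exact_mod_cast card_sdiff_add_card_eq_card hX1X
  have hX1half : (X.card : ℝ) / 2 ≤ X1.card := by
    have h1 : ((X \ X1).card : ℝ) * Y.card ≤ (X.card / 2) * Y.card := by
      have h2 : 4 * R * Ox ≤ X.card * Y.card := by linarith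
      linarith
    have := le_of_mul_le_mul_right h1 hY0
    linarith
  have hW : finrank ℝ (RW G) ≤ R := (finrank_RW G).trans hR
  obtain ⟨Y', hY'Y, hY'c, hpure⟩ := pure_of (RW G) R hR1 hW (fun x => (G.adjMatrix ℝ) x) X1 Y
    (fun x _ => row_mem G x) (by
      intro x hx
      rw [hX1, mem_filter] at hx
      refine le_trans (Nat.mul_le_mul_right _ (card_le_card ?_)) hx.2
      intro y hy
      rw [mem_filter] at hy ⊢
      refine ⟨hy.1, ?_⟩
      by_contra hn
      apply hy.2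
      rw [SimpleGraph.adjMatrix_apply, if_neg hn])
  have hnadj : ∀ x ∈ X1, ∀ y ∈ Y', ¬ G.Adj x y := by
    intro x hx y hy hadj
    have := hpure x hx y hy
    simp only [SimpleGraph.adjMatrix_apply, if_pos hadj] at this
    norm_num at this
  have hY'c' : (Y.card : ℝ) ≤ 2 * Y'.card := by exact_mod_cast hY'c
  -- sizes
  set δ : ℝ := S.card / (16 * R * M ^ 2) with hδ
  have hden : 0 < 16 * (R : ℝ) * M ^ 2 := by positivity
  have hδ4 : 4 ≤ δ := by
    rw [hδ, le_div_iff₀ hden]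
    rw [hqq] at hq
    linarith
  have hX1δ : δ ≤ X1.card := by
    rw [hδ, div_le_iff₀ hden]
    have h1 : 4 * R * M ^ 2 * X.card ≤ 4 * R * M ^ 2 * (2 * X1.card) := by
      apply mul_le_mul_of_nonneg_left _ (by positivity)
      linarith
    linarith
  have hY'δ : δ ≤ Y'.card := by
    rw [hδ, div_le_iff₀ hden]
    have h1 : 4 * R * M ^ 2 * Y.card ≤ 4 * R * M ^ 2 * (2 * Y'.card) := by
      apply mul_le_mul_of_nonneg_left _ (by positivity)
      linarith
    linarith
  set k : ℕ := ⌊δ / 2⌋₊ with hk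
  have hk1 : (k : ℝ) ≤ δ / 2 := Nat.floor_le (by linarith)
  have hk2 : δ / 2 < k + 1 := Nat.lt_floor_add_one _
  have hkX1 : k ≤ X1.card := by
    have : (k : ℝ) ≤ X1.card := by linarith
    exact_mod_cast this
  obtain ⟨X2, hX2X, hX2c⟩ := exists_subset_card_eq hkX1
  set Y2 := Y' \ X2 with hY2
  have hY2c : k ≤ Y2.card := by
    have h1 := le_card_sdiff X2 Y'
    rw [← hY2, hX2c] at h1
    have h2 : 2 * k ≤ Y'.card := by
      have : (2 * k : ℝ) ≤ Y'.card := by linarith
      exact_mod_cast this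
    omega
  have hd : Disjoint X2 Y2 := disjoint_sdiff
  have hX2S : X2 ⊆ S := hX2X.trans (hX1X.trans (hX.trans hS'S))
  have hY2S : Y2 ⊆ S := sdiff_subset.trans (hY'Y.trans (hY.trans hS'S))
  have hh := rho_halve G hd hX2S hY2S (Or.inl fun x hx y hy => hnadj x (hX2X hx) y (sdiff_subset hy))
  have hbig : ∀ Z : Finset V, k ≤ Z.card → (S.card : ℝ) ≤ qq R κ * Z.card := by
    intro Z hZ
    have h1 : (k : ℝ) ≤ Z.card := by exact_mod_cast hZ
    have h2 : δ / 4 ≤ Z.card := by linarith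
    have h3 : (S.card : ℝ) = δ * (16 * R * M ^ 2) := by
      rw [hδ]
      field_simp
    rw [hqq, h3]
    have h4 : (δ / 4) * (64 * R * M ^ 2) ≤ Z.card * (64 * R * M ^ 2) :=
      mul_le_mul_of_nonneg_right h2 (by positivity)
    linarith
  rcases le_total (rho G X2) (rho G Y2) with hle | hle
  · exact ⟨X2, hX2S, hbig X2 (by omega), by omega⟩
  · exact ⟨Y2, hY2S, hbig Y2 hY2c, by omega⟩

end Pool.Agent.H86.Energy
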