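import Pool.Agent.H86.Energy.Find

set_option autoImplicit false
set_option linter.unusedSectionVars false

/-!
# The level induction
-/

namespace Pool.Agent.H86.Energy

open Matrix Finset Module
open Pool.Agent.H974R3.RC (rho rho_mono rho_univ Col col_base peel card_le_two_pow)

variable {V : Type} [Fintype V] [DecidableEq V]

lemma qq_ge_one {R : ℕ} (hR : 1 ≤ R) {κ : ℝ} (hκ : 0 ≤ κ) : 1 ≤ qq R κ := by
  unfold qq
  have hR' : (1 : ℝ) ≤ R := by exact_mod_cast hR
  have h16 : (1 : ℝ) ≤ 16 * (R : ℝ) ^ 2 := by nlinarith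
  have h1 : 1 ≤ Real.exp (Real.log (16 * (R : ℝ) ^ 2) * (2 * κ)) := by
    exact Real.one_le_exp (mul_nonneg (Real.log_nonneg h16) (by linarith))
  have h2 : 1 ≤ (8 * Real.exp (Real.log (16 * (R : ℝ) ^ 2) * (2 * κ))) ^ 2 := by
    apply one_le_pow₀
    linarith
  nlinarith

/-- the constant at level `j + 1` -/
noncomputable def kap (p j : ℕ) : ℝ := 4 * Real.sqrt (min p (2 ^ (j + 2)) : ℕ)

variable (G : SimpleGraph V) [DecidableRel G.Adj]

theorem levels (σ : ℝ) (hσ : σ * σ = 1) (s : ℝ) (hs : 1 ≤ s) (p : ℕ) (hp : 1 ≤ p)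
    (hN : NegS (σ • G.adjMatrix ℝ) s p) (R : ℕ) (hR : (G.adjMatrix ℝ).rank + 1 ≤ R) :
    ∀ (j : ℕ) (S : Finset V), rho G S ≤ 2 ^ j + 2 → ∃ N : ℕ,
      (N : ℝ) ≤ (3 + s * R) * ∏ i ∈ range j,
        (qq R (kap p i) * (Real.log (Fintype.card V) + 3)) ∧ Col G S N := by
  have hR1 : 1 ≤ R := by omega
  have hR1' : (1 : ℝ) ≤ R := by exact_mod_cast hR1
  have hs0 : (0 : ℝ) ≤ s := by linarith
  have hlogV : 0 ≤ Real.log (Fintype.card V) := Real.log_natCast_nonneg _
  have hkap0 : ∀ i, 0 ≤ kap p i := fun i => by unfold kap; positivity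
  have hq1 : ∀ i, 1 ≤ qq R (kap p i) := fun i => qq_ge_one hR1 (hkap0 i)
  have hkap1 : ∀ i, 4 ≤ kap p i := by
    intro i
    unfold kap
    have h1 : 1 ≤ min p (2 ^ (i + 2)) := by
      rw [Nat.le_min]
      exact ⟨hp, Nat.one_le_two_pow⟩
    have h2 : (1 : ℝ) ≤ Real.sqrt (min p (2 ^ (i + 2)) : ℕ) := by
      rw [Real.one_le_sqrt]
      exact_mod_cast h1
    linarith
  intro j
  induction j with
  | zero =>
    intro S hS
    refine ⟨3, ?_, col_base G S (by simpa using hS)⟩
    simp only [range_zero, prod_empty, mul_one]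
    push_cast
    have : 0 ≤ s * R := by positivity
    linarith
  | succ j ih =>
    intro S hS
    set T : ℝ := (3 + s * R) * ∏ i ∈ range j,
        (qq R (kap p i) * (Real.log (Fintype.card V) + 3)) with hT
    have hprod : 1 ≤ ∏ i ∈ range j, (qq R (kap p i) * (Real.log (Fintype.card V) + 3)) := by
      have h1 : ∏ _i ∈ range j, (1 : ℝ) ≤
          ∏ i ∈ range j, (qq R (kap p i) * (Real.log (Fintype.card V) + 3)) := by
        apply prod_le_prod (fun _ _ => by norm_num)
        intro i _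
        have := hq1 i
        nlinarith
      simpa using h1
    have hT1 : 3 + s * R ≤ T := by
      have h0 : 0 ≤ 3 + s * R := by positivity
      calc 3 + s * R = (3 + s * R) * 1 := (mul_one _).symm
        _ ≤ T := mul_le_mul_of_nonneg_left hprod h0
    have hsR : 0 ≤ s * R := by positivity
    set q := qq R (kap p j) with hq
    have hq1' : 1 ≤ q := hq1 j
    obtain ⟨N, hN1, hC⟩ := peel G T q (s * R + q) (2 ^ (j + 1) + 2) (2 ^ j + 2) (by linarith) hq1'
      (by linarith) (fun Z hZ => ih Z hZ) (by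
        intro S hMS hρ
        have hSq : q ≤ S.card := by linarith
        have hSs : s * R ≤ S.card := by linarith
        obtain ⟨Z, h1, h2, h3⟩ := find G σ hσ s hs0 p hN R hR S (kap p j) (by linarith [hkap1 j]) (by
          have e1 : rho G S ≤ R := by
            have := rho_mono G (subset_univ S)
            rw [rho_univ] at this
            omega
          have e2 : s * rho G S ≤ S.card := by
            have : s * (rho G S : ℝ) ≤ s * R := by
              apply mul_le_mul_of_nonneg_left _ hs0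
              exact_mod_cast e1
            linarith
          have e3 : rho G S ≤ 2 ^ (j + 2) := by
            have : 2 ≤ 2 ^ (j + 1) := by
              calc 2 = 2 ^ 1 := rfl
                _ ≤ 2 ^ (j + 1) := Nat.pow_le_pow_right (by norm_num) (by omega)
            rw [pow_succ] at *
            omega
          have e4 : Real.sqrt (min p (rho G S) : ℕ) ≤ Real.sqrt (min p (2 ^ (j + 2)) : ℕ) := by
            apply Real.sqrt_le_sqrt
            exact_mod_cast min_le_min le_rfl e3
          have e5 : (1 : ℝ) ≤ Real.sqrt (min p (2 ^ (j + 2)) : ℕ) := by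
            have := hkap1 j
            unfold kap at this
            linarith
          have e6 : (0 : ℝ) ≤ S.card := Nat.cast_nonneg _
          have e7 : Real.sqrt (min p (rho G S) : ℕ) * S.card ≤
              Real.sqrt (min p (2 ^ (j + 2)) : ℕ) * S.card := mul_le_mul_of_nonneg_right e4 e6
          have e8 : (S.card : ℝ) ≤ Real.sqrt (min p (2 ^ (j + 2)) : ℕ) * S.card := by
            calc (S.card : ℝ) = 1 * S.card := (one_mul _).symm
              _ ≤ _ := mul_le_mul_of_nonneg_right e5 e6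
          unfold kap
          linarith) hSq
        refine ⟨Z, h1, h2, ?_⟩
        rw [pow_succ] at hρ
        omega) S.card S le_rfl hS
    refine ⟨N, ?_, hC⟩
    have hlog : Real.log S.card ≤ Real.log (Fintype.card V) := by
      by_cases h0 : S.card = 0
      · rw [h0]; simpa using hlogV
      · apply Real.log_le_log
        · have : 0 < S.card := Nat.pos_of_ne_zero h0
          exact_mod_cast this
        · exact_mod_cast card_le_univ S
    have h1 : q * Real.log S.card + 1 ≤ q * Real.log (Fintype.card V) + 1 := by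
      have := mul_le_mul_of_nonneg_left hlog (by linarith : (0 : ℝ) ≤ q)
      linarith
    rw [prod_range_succ, ← mul_assoc, ← hT]
    have hT0 : 1 ≤ T := by linarith
    calc (N : ℝ) ≤ T * (q * Real.log S.card + 1) + (s * R + q) := hN1
      _ ≤ T * (q * Real.log (Fintype.card V) + 1) + (T + T * q) := by
        have h2 := mul_le_mul_of_nonneg_left h1 (by linarith : (0 : ℝ) ≤ T)
        have h3 : q ≤ T * q := by nlinarith
        linarith
      _ = T * (q * Real.log (Fintype.card V) + q + 2) := by ring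
      _ ≤ T * (q * Real.log (Fintype.card V) + q + 2 * q) := by
        apply mul_le_mul_of_nonneg_left _ (by linarith)
        linarith
      _ = T * (q * (Real.log (Fintype.card V) + 3)) := by ring

/-- the sum of the square roots -/
lemma sum_sqrt (p r : ℕ) (hp : 1 ≤ p) (hpr : p ≤ r) :
    ∑ i ∈ range (Nat.clog 2 r), Real.sqrt (min p (2 ^ (i + 2)) : ℕ) ≤
      9 * (Real.sqrt p * (1 + Real.log (r / p))) := by
  have hp0 : (0 : ℝ) < p := by exact_mod_cast hp
  have hr0 : (0 : ℝ) < r := by exact_mod_cast (lt_of_lt_of_le hp hpr)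
  have hA : ∀ J : ℕ, ∑ i ∈ range J, Real.sqrt (min p (2 ^ (i + 2)) : ℕ) ≤
      5 * Real.sqrt ((2 : ℝ) ^ J) := by
    intro J
    induction J with
    | zero => simp
    | succ J ih =>
      rw [sum_range_succ]
      have h1 : Real.sqrt (min p (2 ^ (J + 2)) : ℕ) ≤ 2 * Real.sqrt ((2 : ℝ) ^ J) := by
        calc Real.sqrt (min p (2 ^ (J + 2)) : ℕ) ≤ Real.sqrt ((2 : ℝ) ^ 2 * 2 ^ J) := by
              apply Real.sqrt_le_sqrt
              have : min p (2 ^ (J + 2)) ≤ 2 ^ (J + 2) := min_le_right _ _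
              have h2 : ((min p (2 ^ (J + 2)) : ℕ) : ℝ) ≤ ((2 ^ (J + 2) : ℕ) : ℝ) := by
                exact_mod_cast this
              refine h2.trans (le_of_eq ?_)
              push_cast
              ring
          _ = 2 * Real.sqrt ((2 : ℝ) ^ J) := by
              rw [Real.sqrt_mul (by norm_num), Real.sqrt_sq (by norm_num)]
      have h2 : Real.sqrt ((2 : ℝ) ^ (J + 1)) = Real.sqrt 2 * Real.sqrt ((2 : ℝ) ^ J) := by
        rw [pow_succ, mul_comm, Real.sqrt_mul (by norm_num)]
      rw [h2]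
      have h3 : (1.41 : ℝ) ≤ Real.sqrt 2 := by
        apply Real.le_sqrt_of_sq_le
        norm_num
      have h4 : 0 ≤ Real.sqrt ((2 : ℝ) ^ J) := Real.sqrt_nonneg _
      nlinarith
  set J := Nat.clog 2 r with hJ
  set J₀ := Nat.clog 2 p with hJ0
  have hJJ : J₀ ≤ J := Nat.clog_mono_right 2 hpr
  have hpJ : p ≤ 2 ^ J₀ := Nat.le_pow_clog (by norm_num) p
  have hup : ∀ m : ℕ, 1 ≤ m → (2 : ℝ) ^ Nat.clog 2 m ≤ 2 * m := by
    intro m hm
    rcases Nat.lt_or_ge 1 m with h | h
    · have h3 : 2 ^ (Nat.clog 2 m - 1) < m := Nat.pow_pred_clog_lt_self (by norm_num) h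
      have h4 : 0 < Nat.clog 2 m := Nat.clog_pos (by norm_num) h
      have h5 : 2 ^ Nat.clog 2 m = 2 * 2 ^ (Nat.clog 2 m - 1) := by
        rw [← pow_succ']
        congr 1
        omega
      have h6 : 2 ^ Nat.clog 2 m ≤ 2 * m := by omega
      exact_mod_cast h6
    · have : m = 1 := by omega
      subst this
      norm_num
  have hB : ∑ i ∈ range J, Real.sqrt (min p (2 ^ (i + 2)) : ℕ) ≤
      ∑ i ∈ range J₀, Real.sqrt (min p (2 ^ (i + 2)) : ℕ) + (J - J₀ : ℕ) * Real.sqrt p := by
    rw [← sum_range_add_sum_Ico _ hJJ]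
    have h1 : ∑ i ∈ Ico J₀ J, Real.sqrt (min p (2 ^ (i + 2)) : ℕ) ≤ ∑ _i ∈ Ico J₀ J, Real.sqrt p := by
      apply sum_le_sum
      intro i _
      apply Real.sqrt_le_sqrt
      exact_mod_cast min_le_left _ _
    rw [sum_const, nsmul_eq_mul, Nat.card_Ico] at h1
    linarith
  have hlog2 := Real.log_two_gt_d9
  have hC : ((J - J₀ : ℕ) : ℝ) ≤ 1 + 1.5 * Real.log (r / p) := by
    have h1 : (2 : ℝ) ^ (J - J₀ : ℕ) ≤ 2 * (r / p) := by
      have h2 : (2 : ℝ) ^ J = 2 ^ (J - J₀ : ℕ) * 2 ^ J₀ := by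
        rw [← pow_add]
        congr 1
        omega
      have h3 : (2 : ℝ) ^ J ≤ 2 * r := hup r (hp.trans hpr)
      have h4 : (p : ℝ) ≤ 2 ^ J₀ := by exact_mod_cast hpJ
      have h5 : (2 : ℝ) ^ (J - J₀ : ℕ) * p ≤ 2 * r := by
        calc (2 : ℝ) ^ (J - J₀ : ℕ) * p ≤ 2 ^ (J - J₀ : ℕ) * 2 ^ J₀ :=
              mul_le_mul_of_nonneg_left h4 (by positivity)
          _ = 2 ^ J := h2.symm
          _ ≤ 2 * r := h3
      rw [mul_div_assoc', le_div_iff₀ hp0]
      exact h5
    have h6 := Real.log_le_log (by positivity) h1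
    rw [Real.log_pow, Real.log_mul (by norm_num) (by positivity)] at h6
    have h7 : 0 ≤ Real.log (r / p) := by
      apply Real.log_nonneg
      rw [le_div_iff₀ hp0]
      rw [one_mul]
      exact_mod_cast hpr
    nlinarith
  have hlog0 : 0 ≤ Real.log (r / p) := by
    apply Real.log_nonneg
    rw [le_div_iff₀ hp0]
    rw [one_mul]
    exact_mod_cast hpr
  have hD : Real.sqrt ((2 : ℝ) ^ J₀) ≤ 1.42 * Real.sqrt p := by
    have h1 : (2 : ℝ) ^ J₀ ≤ 2 * p := hup p hp
    calc Real.sqrt ((2 : ℝ) ^ J₀) ≤ Real.sqrt (2 * p) := Real.sqrt_le_sqrt h1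
      _ = Real.sqrt 2 * Real.sqrt p := Real.sqrt_mul (by norm_num) _
      _ ≤ 1.42 * Real.sqrt p := by
          apply mul_le_mul_of_nonneg_right _ (Real.sqrt_nonneg _)
          rw [Real.sqrt_le_left (by norm_num)]
          norm_num
  have hsp : 0 ≤ Real.sqrt p := Real.sqrt_nonneg _
  have hfin := mul_le_mul_of_nonneg_right hC hsp
  have h1 := hA J₀
  have h2 : 0 ≤ Real.sqrt p * Real.log (r / p) := mul_nonneg hsp hlog0
  nlinarith

end Pool.Agent.H86.Energy
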