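import Pool.Agent.H86.Energy.Level

set_option autoImplicit false
set_option linter.unusedSectionVars false

/-!
# The bound on the chromatic number
-/

namespace Pool.Agent.H86.Energy

open Matrix Finset Module
open Pool.Agent.H974R3.RC (rho rho_mono rho_univ rank_univ Col col_base card_le_two_pow)

variable {V : Type} [Fintype V] [DecidableEq V]

variable (G : SimpleGraph V) [DecidableRel G.Adj]

lemma log_qq (R : ℕ) (hR : 1 ≤ R) (κ : ℝ) :
    Real.log (qq R κ) = Real.log (4096 * R) + 4 * Real.log (16 * (R : ℝ) ^ 2) * κ := by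
  have hR' : (0 : ℝ) < R := by exact_mod_cast hR
  unfold qq
  rw [mul_pow, ← Real.exp_nat_mul, ← mul_assoc, Real.log_mul (by positivity) (Real.exp_pos _).ne',
    Real.log_exp]
  have e : (64 : ℝ) * R * 8 ^ 2 = 4096 * R := by ring
  rw [e]
  push_cast
  ring

theorem main (htw : ∀ u v : V, (∀ x, G.Adj x u ↔ G.Adj x v) → u = v)
    (hr : 1 < (G.adjMatrix ℝ).rank) (σ : ℝ) (hσ : σ * σ = 1) (s : ℝ) (hs : 1 ≤ s) (p : ℕ)
    (hp : 1 ≤ p) (hpr : p ≤ (G.adjMatrix ℝ).rank) (hN : NegS (σ • G.adjMatrix ℝ) s p) :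
    ∃ N : ℕ, 0 < N ∧ G.Colorable N ∧
      Real.log N ≤ Real.log s + 1400 * (Real.sqrt p *
        (1 + Real.log ((G.adjMatrix ℝ).rank / p)) * Real.log (G.adjMatrix ℝ).rank) := by
  classical
  set r := (G.adjMatrix ℝ).rank with hrdef
  set R := r + 1 with hRdef
  have hr2 : (2 : ℝ) ≤ r := by exact_mod_cast hr
  have hRr : (R : ℝ) = r + 1 := by rw [hRdef]; push_cast; ring
  have hlogV : Real.log (Fintype.card V) ≤ r := by
    have h1 := card_le_two_pow G htw
    by_cases h0 : Fintype.card V = 0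
    · rw [h0]; simp
    · have h2 : Real.log (Fintype.card V) ≤ Real.log ((2 : ℝ) ^ r) := by
        apply Real.log_le_log
        · have : 0 < Fintype.card V := Nat.pos_of_ne_zero h0
          exact_mod_cast this
        · exact_mod_cast h1
      rw [Real.log_pow] at h2
      have h3 := Real.log_two_lt_d9
      have h4 : (r : ℝ) * Real.log 2 ≤ r * 1 := by
        apply mul_le_mul_of_nonneg_left _ (by linarith)
        linarith
      linarith
  have hlogV0 : 0 ≤ Real.log (Fintype.card V) := Real.log_natCast_nonneg _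
  obtain ⟨N, hN1, hC⟩ := levels G σ hσ s hs p hp hN R le_rfl (Nat.clog 2 r) univ (by
      rw [rho_univ, ← hrdef]
      have hcl : r ≤ 2 ^ Nat.clog 2 r := Nat.le_pow_clog (by norm_num) r
      omega)
  have hVne : 0 < Fintype.card V := by
    by_contra hcon
    have h0 : Fintype.card V = 0 := by omega
    have h1 : r ≤ Fintype.card V := by
      have := rank_univ G
      omega
    omega
  have hN0 : 0 < N := by
    obtain ⟨v⟩ : Nonempty V := Fintype.card_pos_iff.mp hVne
    obtain ⟨c, hc, _⟩ := hC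
    have := hc v (Finset.mem_univ v)
    omega
  refine ⟨N, hN0, ?_, ?_⟩
  · obtain ⟨c, hc, hc2⟩ := hC
    refine ⟨SimpleGraph.Coloring.mk (fun v => (⟨c v, hc v (Finset.mem_univ v)⟩ : Fin N)) ?_⟩
    intro u v huv h
    exact hc2 u (Finset.mem_univ u) v (Finset.mem_univ v) huv (by simpa using congrArg Fin.val h)
  have hR1 : 1 ≤ R := by omega
  have hR0 : (0 : ℝ) < R := by exact_mod_cast hR1
  have hkap0 : ∀ i, 0 ≤ kap p i := fun i => by unfold kap; positivity
  have hqpos : ∀ i, 0 < qq R (kap p i) := fun i => lt_of_lt_of_le one_pos (qq_ge_one hR1 (hkap0 i))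
  set Λ := Real.log r with hΛ
  have hl2 := Real.log_two_gt_d9
  have hl2' := Real.log_two_lt_d9
  have hΛ2 : Real.log 2 ≤ Λ := Real.log_le_log (by norm_num) hr2
  have hΛ0 : 0 < Λ := by linarith
  -- logarithms
  have hlR : Real.log R ≤ 1.6 * Λ := by
    have h1 : (R : ℝ) ≤ 1.5 * r := by rw [hRr]; linarith
    have h2 : Real.log R ≤ Real.log (1.5 * r) := Real.log_le_log hR0 h1
    rw [Real.log_mul (by norm_num) (by linarith)] at h2
    have h3 : Real.log 1.5 ≤ 0.6 * Real.log 2 := by
      have h4 : Real.log ((1.5 : ℝ) ^ 5) ≤ Real.log ((2 : ℝ) ^ 3) :=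
        Real.log_le_log (by norm_num) (by norm_num)
      rw [Real.log_pow, Real.log_pow] at h4
      push_cast at h4
      linarith
    linarith
  have hl4096 : Real.log (4096 * R) ≤ 14 * Λ := by
    rw [Real.log_mul (by norm_num) hR0.ne']
    have h1 : Real.log 4096 = 12 * Real.log 2 := by
      have : (4096 : ℝ) = 2 ^ 12 := by norm_num
      rw [this, Real.log_pow]
      norm_num
    rw [h1]
    linarith
  have hl16 : Real.log (16 * (R : ℝ) ^ 2) ≤ 8 * Λ := by
    rw [Real.log_mul (by norm_num) (by positivity), Real.log_pow]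
    have h1 : Real.log 16 = 4 * Real.log 2 := by
      have : (16 : ℝ) = 2 ^ 4 := by norm_num
      rw [this, Real.log_pow]
      norm_num
    rw [h1]
    push_cast
    linarith
  have hlV3 : Real.log (Real.log (Fintype.card V) + 3) ≤ 3 * Λ := by
    have h1 : Real.log (Real.log (Fintype.card V) + 3) ≤ Real.log (4 * r) := by
      apply Real.log_le_log (by linarith)
      linarith
    rw [Real.log_mul (by norm_num) (by linarith)] at h1
    have h2 : Real.log 4 = 2 * Real.log 2 := by
      have : (4 : ℝ) = 2 ^ 2 := by norm_num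
      rw [this, Real.log_pow]
      norm_num
    linarith
  have hlast : Real.log (3 + s * R) ≤ Real.log s + 3 * Λ := by
    have h1 : Real.log (3 + s * R) ≤ Real.log (s * (4 * r)) := by
      apply Real.log_le_log (by positivity)
      rw [hRr]
      nlinarith
    rw [Real.log_mul (by linarith) (by linarith), Real.log_mul (by norm_num) (by linarith)] at h1
    have h2 : Real.log 4 = 2 * Real.log 2 := by
      have : (4 : ℝ) = 2 ^ 2 := by norm_num
      rw [this, Real.log_pow]
      norm_num
    linarith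
  have hmin1 : ∀ i, (1 : ℝ) ≤ Real.sqrt (min p (2 ^ (i + 2)) : ℕ) := by
    intro i
    rw [Real.one_le_sqrt]
    have h1 : 1 ≤ min p (2 ^ (i + 2)) := by
      rw [Nat.le_min]
      exact ⟨hp, Nat.one_le_two_pow⟩
    exact_mod_cast h1
  have hterm : ∀ i, Real.log (qq R (kap p i) * (Real.log (Fintype.card V) + 3)) ≤
      145 * Λ * Real.sqrt (min p (2 ^ (i + 2)) : ℕ) := by
    intro i
    rw [Real.log_mul (hqpos i).ne' (by linarith), log_qq R hR1]
    have h1 : 4 * Real.log (16 * (R : ℝ) ^ 2) * kap p i ≤ 4 * (8 * Λ) * kap p i :=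
      mul_le_mul_of_nonneg_right (by linarith) (hkap0 i)
    have h2 : kap p i = 4 * Real.sqrt (min p (2 ^ (i + 2)) : ℕ) := rfl
    rw [h2] at h1 ⊢
    have h3 : Λ * 1 ≤ Λ * Real.sqrt (min p (2 ^ (i + 2)) : ℕ) :=
      mul_le_mul_of_nonneg_left (hmin1 i) hΛ0.le
    nlinarith
  have hN0r : (0 : ℝ) < N := by exact_mod_cast hN0
  have h1 : Real.log N ≤ Real.log (3 + s * R) + ∑ i ∈ range (Nat.clog 2 r),
      Real.log (qq R (kap p i) * (Real.log (Fintype.card V) + 3)) := by
    refine (Real.log_le_log hN0r hN1).trans (le_of_eq ?_)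
    rw [Real.log_mul, Real.log_prod]
    · intro i _
      exact mul_ne_zero (hqpos i).ne' (by linarith)
    · have : 0 < s * R := by positivity
      linarith
    · apply prod_ne_zero_iff.2
      intro i _
      exact mul_ne_zero (hqpos i).ne' (by linarith)
  have h2 : ∑ i ∈ range (Nat.clog 2 r), Real.log (qq R (kap p i) * (Real.log (Fintype.card V) + 3)) ≤
      145 * Λ * (9 * (Real.sqrt p * (1 + Real.log (r / p)))) := by
    calc _ ≤ ∑ i ∈ range (Nat.clog 2 r), 145 * Λ * Real.sqrt (min p (2 ^ (i + 2)) : ℕ) :=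
          sum_le_sum fun i _ => hterm i
      _ = 145 * Λ * ∑ i ∈ range (Nat.clog 2 r), Real.sqrt (min p (2 ^ (i + 2)) : ℕ) := by
          rw [mul_sum]
      _ ≤ _ := mul_le_mul_of_nonneg_left (sum_sqrt p r hp hpr) (by positivity)
  have h3 : (1 : ℝ) ≤ Real.sqrt p := by
    rw [Real.one_le_sqrt]
    exact_mod_cast hp
  have hp0 : (0 : ℝ) < p := by exact_mod_cast hp
  have h4 : 0 ≤ Real.log (r / p) := by
    apply Real.log_nonneg
    rw [le_div_iff₀ hp0]
    rw [one_mul]
    exact_mod_cast hpr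
  have h5 : Λ ≤ Real.sqrt p * (1 + Real.log (r / p)) * Λ := by
    have : 1 ≤ Real.sqrt p * (1 + Real.log (r / p)) := by nlinarith
    nlinarith
  have h6 : 0 ≤ Real.sqrt p * (1 + Real.log (r / p)) * Λ := by linarith
  nlinarith

end Pool.Agent.H86.Energy
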