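import Pool.Agent.H86.Energy.Riesz

set_option autoImplicit false
set_option linter.unusedSectionVars false

/-!
# A short factorisation gives a large rectangle with few ones
-/

namespace Pool.Agent.H86.Energy

open Finset

variable {ι : Type} [Fintype ι] [DecidableEq ι]

lemma sum_sq_mul_le (a b : ι → ℝ) : ∑ i, (a i * b i) ^ 2 ≤ (∑ i, (a i) ^ 2) * ∑ i, (b i) ^ 2 := by
  rw [sum_mul_sum]
  apply sum_le_sum
  intro i _
  rw [mul_pow]
  exact single_le_sum (f := fun j => a i ^ 2 * b j ^ 2) (fun j _ => by positivity) (mem_univ i)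

/-- the scaled vector, repeated `N` times -/
noncomputable def sc (N : ℕ) (t : ℝ) (a : ι → ℝ) : ι × Fin N → ℝ :=
  fun j => Real.sqrt (t / N) * a j.1

lemma sum_sc (N : ℕ) (f : ι → ℝ) : ∑ j : ι × Fin N, f j.1 = N * ∑ i, f i := by
  rw [Fintype.sum_prod_type]
  simp only [sum_const, card_univ, Fintype.card_fin, nsmul_eq_mul]
  rw [mul_sum]

lemma sc_mul (N : ℕ) (hN : 0 < N) (t : ℝ) (ht : 0 ≤ t) (a b : ι → ℝ) :
    ∑ j, sc N t a j * sc N t b j = t * ∑ i, a i * b i := by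
  have h1 : ∀ j : ι × Fin N, sc N t a j * sc N t b j = (fun i => (t / N) * (a i * b i)) j.1 := by
    intro j
    unfold sc
    have : Real.sqrt (t / N) * Real.sqrt (t / N) = t / N := Real.mul_self_sqrt (by positivity)
    calc _ = (Real.sqrt (t / N) * Real.sqrt (t / N)) * (a j.1 * b j.1) := by ring
      _ = _ := by rw [this]
  rw [sum_congr rfl fun j _ => h1 j, sum_sc N (fun i => (t / N) * (a i * b i)), ← mul_sum]
  have : (N : ℝ) ≠ 0 := by positivity
  field_simp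

lemma sc_sq (N : ℕ) (hN : 0 < N) (t : ℝ) (ht : 0 ≤ t) (a : ι → ℝ) :
    ∑ j, (sc N t a j) ^ 2 = t * ∑ i, (a i) ^ 2 := by
  have := sc_mul N hN t ht a a
  simpa [sq] using this

lemma sc_mul_sq (N : ℕ) (hN : 0 < N) (t : ℝ) (ht : 0 ≤ t) (a b : ι → ℝ) :
    ∑ j, (sc N t a j * sc N t b j) ^ 2 = t ^ 2 / N * ∑ i, (a i * b i) ^ 2 := by
  have h1 : ∀ j : ι × Fin N, (sc N t a j * sc N t b j) ^ 2 =
      (fun i => (t / N) ^ 2 * (a i * b i) ^ 2) j.1 := by
    intro j
    unfold sc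
    have : Real.sqrt (t / N) * Real.sqrt (t / N) = t / N := Real.mul_self_sqrt (by positivity)
    calc _ = (Real.sqrt (t / N) * Real.sqrt (t / N)) ^ 2 * (a j.1 * b j.1) ^ 2 := by ring
      _ = _ := by rw [this]
  rw [sum_congr rfl fun j _ => h1 j, sum_sc N (fun i => (t / N) ^ 2 * (a i * b i) ^ 2), ← mul_sum]
  have : (N : ℝ) ≠ 0 := by positivity
  field_simp

lemma sc_abs (N : ℕ) (hN : 0 < N) (t K : ℝ) (ht : 0 ≤ t) (a : ι → ℝ) (ha : ∑ i, (a i) ^ 2 ≤ K)
    (hNK : 4 * (t * K) ≤ N) (j : ι × Fin N) : |sc N t a j| ≤ 1 / 2 := by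
  have hN' : (0 : ℝ) < N := by exact_mod_cast hN
  apply abs_le_of_sq_le_sq _ (by norm_num)
  unfold sc
  rw [mul_pow, Real.sq_sqrt (by positivity)]
  have h1 : (a j.1) ^ 2 ≤ K :=
    (single_le_sum (f := fun i => a i ^ 2) (fun i _ => sq_nonneg _) (mem_univ j.1)).trans ha
  calc t / N * (a j.1) ^ 2 ≤ t / N * K := mul_le_mul_of_nonneg_left h1 (by positivity)
    _ = t * K / N := by ring
    _ ≤ (1 / 2) ^ 2 := by
        rw [div_le_iff₀ hN']
        linarith

/-- the two estimates for one pair of vectors -/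
lemma pair_est (N : ℕ) (hN : 0 < N) (t K : ℝ) (ht : 0 ≤ t) (hK : 0 ≤ K) (hNK : 4 * (t * K) ≤ N)
    (hNK2 : 20 * (t ^ 2 * K ^ 2) ≤ N) (a b : ι → ℝ) (ha : ∑ i, (a i) ^ 2 ≤ K)
    (hb : ∑ i, (b i) ^ 2 ≤ K) :
    (∑ i, a i * b i = 0 → (2 : ℝ) ^ Fintype.card (ι × Fin N) * (1 / 2) ≤
      ∑ ε, tr (8 * Real.exp (t * K)) (RP (sc N t a) ε) *
        tr (8 * Real.exp (t * K)) (RP (sc N t b) ε)) ∧
    (∑ i, a i * b i = -1 → ∑ ε, tr (8 * Real.exp (t * K)) (RP (sc N t a) ε) *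
        tr (8 * Real.exp (t * K)) (RP (sc N t b) ε) ≤
        (2 : ℝ) ^ Fintype.card (ι × Fin N) * Real.exp (-t)) := by
  have hN' : (0 : ℝ) < N := by exact_mod_cast hN
  set A := sc N t a with hA
  set B := sc N t b with hB
  set P : ℝ := (2 : ℝ) ^ Fintype.card (ι × Fin N) with hP
  have hP0 : 0 < P := by positivity
  set M : ℝ := 8 * Real.exp (t * K) with hM
  have hM0 : 0 < M := by positivity
  have hAa : ∀ j, |A j| ≤ 1 / 2 := sc_abs N hN t K ht a ha hNK
  have hBa : ∀ j, |B j| ≤ 1 / 2 := sc_abs N hN t K ht b hb hNK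
  have hA1 : ∀ j, |A j| ≤ 1 := fun j => (hAa j).trans (by norm_num)
  have hB1 : ∀ j, |B j| ≤ 1 := fun j => (hBa j).trans (by norm_num)
  have hAB : ∀ j, |A j * B j| ≤ 1 / 2 := by
    intro j
    rw [abs_mul]
    calc |A j| * |B j| ≤ (1 / 2) * (1 / 2) :=
          mul_le_mul (hAa j) (hBa j) (abs_nonneg _) (by norm_num)
      _ ≤ 1 / 2 := by norm_num
  have hF : ∀ ε, 0 ≤ RP A ε := fun ε => RP_nonneg hA1 ε
  have hH : ∀ ε, 0 ≤ RP B ε := fun ε => RP_nonneg hB1 ε
  have hAA : ∑ j, (A j) ^ 2 ≤ t * K := by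
    rw [hA, sc_sq N hN t ht]
    exact mul_le_mul_of_nonneg_left ha ht
  have hBB : ∑ j, (B j) ^ 2 ≤ t * K := by
    rw [hB, sc_sq N hN t ht]
    exact mul_le_mul_of_nonneg_left hb ht
  have hABs : ∑ j, A j * B j = t * ∑ i, a i * b i := sc_mul N hN t ht a b
  have hnn : ∀ j, 0 ≤ 1 + A j * B j := by
    intro j
    have := abs_le.1 (hAB j)
    linarith
  constructor
  · intro h0
    have h1 : ∑ ε, (RP A ε * RP B ε - (RP A ε) ^ 2 * RP B ε / M - (RP B ε) ^ 2 * RP A ε / M) ≤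
        ∑ ε, tr M (RP A ε) * tr M (RP B ε) :=
      sum_le_sum fun ε _ => tr_mul_ge hM0 (hF ε) (hH ε)
    refine le_trans ?_ h1
    rw [sum_sub_distrib, sum_sub_distrib, ← sum_div, ← sum_div, E2, E3, E3]
    have h2 : 9 / 10 ≤ ∏ j, (1 + A j * B j) := by
      have h3 := exp_le_prod (fun j => A j * B j) hAB
      refine le_trans ?_ h3
      rw [hABs, h0, mul_zero, hA, hB, sc_mul_sq N hN t ht]
      have h4 : t ^ 2 / N * ∑ i, (a i * b i) ^ 2 ≤ 1 / 20 := by
        have h5 : ∑ i, (a i * b i) ^ 2 ≤ K ^ 2 := by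
          refine (sum_sq_mul_le a b).trans ?_
          rw [sq]
          exact mul_le_mul ha hb (sum_nonneg fun i _ => sq_nonneg _) hK
        calc t ^ 2 / N * ∑ i, (a i * b i) ^ 2 ≤ t ^ 2 / N * K ^ 2 :=
              mul_le_mul_of_nonneg_left h5 (by positivity)
          _ = t ^ 2 * K ^ 2 / N := by ring
          _ ≤ 1 / 20 := by
              rw [div_le_iff₀ hN']
              linarith
      have h6 := Real.add_one_le_exp (0 - 2 * (t ^ 2 / N * ∑ i, (a i * b i) ^ 2))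
      linarith
    have h7 : ∏ j, (1 + A j ^ 2 + 2 * (A j * B j)) ≤ Real.exp (t * K) := by
      have h8 := prod_le_exp (fun j => A j ^ 2 + 2 * (A j * B j)) (by
        intro j
        have := abs_le.1 (hAB j)
        nlinarith [sq_nonneg (A j)])
      have h9 : ∏ j, (1 + A j ^ 2 + 2 * (A j * B j)) =
          ∏ j, (1 + (A j ^ 2 + 2 * (A j * B j))) := prod_congr rfl fun j _ => by ring
      rw [h9]
      refine h8.trans (Real.exp_le_exp.2 ?_)
      rw [sum_add_distrib, ← mul_sum, hABs, h0]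
      linarith
    have h7' : ∏ j, (1 + B j ^ 2 + 2 * (B j * A j)) ≤ Real.exp (t * K) := by
      have h8 := prod_le_exp (fun j => B j ^ 2 + 2 * (B j * A j)) (by
        intro j
        have := abs_le.1 (hAB j)
        nlinarith [sq_nonneg (B j)])
      have h9 : ∏ j, (1 + B j ^ 2 + 2 * (B j * A j)) =
          ∏ j, (1 + (B j ^ 2 + 2 * (B j * A j))) := prod_congr rfl fun j _ => by ring
      rw [h9]
      refine h8.trans (Real.exp_le_exp.2 ?_)
      rw [sum_add_distrib, ← mul_sum]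
      have h10 : ∑ j, B j * A j = ∑ j, A j * B j := sum_congr rfl fun j _ => mul_comm _ _
      rw [h10, hABs, h0]
      linarith
    have hexp : 0 < Real.exp (t * K) := Real.exp_pos _
    have h11 : P * (∏ j, (1 + A j ^ 2 + 2 * (A j * B j))) / M ≤ P / 8 := by
      rw [div_le_div_iff₀ hM0 (by norm_num), hM]
      nlinarith
    have h12 : P * (∏ j, (1 + B j ^ 2 + 2 * (B j * A j))) / M ≤ P / 8 := by
      rw [div_le_div_iff₀ hM0 (by norm_num), hM]
      nlinarith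
    have h13 : P * (9 / 10) ≤ P * ∏ j, (1 + A j * B j) := mul_le_mul_of_nonneg_left h2 hP0.le
    linarith
  · intro h0
    calc ∑ ε, tr M (RP A ε) * tr M (RP B ε) ≤ ∑ ε, RP A ε * RP B ε := by
          apply sum_le_sum
          intro ε _
          exact mul_le_mul (tr_le_self (hF ε)) (tr_le_self (hH ε)) (tr_nonneg (hH ε)) (hF ε)
      _ = P * ∏ j, (1 + A j * B j) := E2 A B
      _ ≤ P * Real.exp (-t) := by
          apply mul_le_mul_of_nonneg_left _ hP0.le
          have := prod_le_exp (fun j => A j * B j) hnn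
          rw [hABs, h0] at this
          simpa using this

/-- **The rectangle lemma.** -/
theorem rect {V : Type} [DecidableEq V] (S : Finset V) (adj : V → V → Prop) [DecidableRel adj]
    (α β : V → ι → ℝ) (K t L : ℝ) (ht : 0 ≤ t) (hK : 0 ≤ K) (hL : 0 ≤ L)
    (hα : ∀ x ∈ S, ∑ i, (α x i) ^ 2 ≤ K) (hβ : ∀ x ∈ S, ∑ i, (β x i) ^ 2 ≤ K)
    (hab : ∀ x ∈ S, ∀ y ∈ S, ∑ i, α x i * β y i = if adj x y then -1 else 0) :
    ∃ X ⊆ S, ∃ Y ⊆ S,
      (1 / 2) * (∑ x ∈ S, ∑ y ∈ S, if adj x y then (0 : ℝ) else 1) -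
        L * (S.card : ℝ) ^ 2 * Real.exp (-t) ≤
      (8 * Real.exp (t * K)) ^ 2 * ∑ x ∈ X, ∑ y ∈ Y, if adj x y then -L else 1 := by
  classical
  obtain ⟨N, hN⟩ := exists_nat_ge (max 1 (max (4 * (t * K)) (20 * (t ^ 2 * K ^ 2))))
  have hN1 : (1 : ℝ) ≤ N := (le_max_left _ _).trans hN
  have hN0 : 0 < N := by
    have : (0 : ℝ) < N := by linarith
    exact_mod_cast this
  have hNK : 4 * (t * K) ≤ N := (le_max_left _ _).trans ((le_max_right _ _).trans hN)
  have hNK2 : 20 * (t ^ 2 * K ^ 2) ≤ N := (le_max_right _ _).trans ((le_max_right _ _).trans hN)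
  set P : ℝ := (2 : ℝ) ^ Fintype.card (ι × Fin N) with hP
  set M : ℝ := 8 * Real.exp (t * K) with hM
  have hM0 : 0 < M := by positivity
  have hP0 : 0 < P := by positivity
  set w : V → V → ℝ := fun x y => if adj x y then -L else 1 with hw
  set c : ℝ := (1 / 2) * (∑ x ∈ S, ∑ y ∈ S, if adj x y then (0 : ℝ) else 1) -
        L * (S.card : ℝ) ^ 2 * Real.exp (-t) with hc
  -- the average
  have havg : P * c ≤ ∑ ε : ι × Fin N → Bool, ∑ x ∈ S, ∑ y ∈ S,
      w x y * (tr M (RP (sc N t (α x)) ε) * tr M (RP (sc N t (β y)) ε)) := by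
    have h1 : ∑ ε : ι × Fin N → Bool, ∑ x ∈ S, ∑ y ∈ S,
        w x y * (tr M (RP (sc N t (α x)) ε) * tr M (RP (sc N t (β y)) ε)) =
        ∑ x ∈ S, ∑ y ∈ S, w x y * ∑ ε : ι × Fin N → Bool,
          (tr M (RP (sc N t (α x)) ε) * tr M (RP (sc N t (β y)) ε)) := by
      rw [sum_comm]
      apply sum_congr rfl
      intro x _
      rw [sum_comm]
      apply sum_congr rfl
      intro y _
      rw [mul_sum]
    rw [h1]
    have h2 : P * c = ∑ x ∈ S, ∑ y ∈ S, P * ((1 / 2) * (if adj x y then (0 : ℝ) else 1) -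
        L * Real.exp (-t)) := by
      have h3 : ∀ x ∈ S, ∑ y ∈ S, P * ((1 / 2) * (if adj x y then (0 : ℝ) else 1) -
          L * Real.exp (-t)) =
          P * ((1 / 2) * ∑ y ∈ S, (if adj x y then (0 : ℝ) else 1)) -
            P * (L * Real.exp (-t)) * S.card := by
        intro x _
        rw [← mul_sum, sum_sub_distrib, ← mul_sum, sum_const, nsmul_eq_mul]
        ring
      rw [sum_congr rfl h3, sum_sub_distrib, ← mul_sum, ← mul_sum, sum_const, nsmul_eq_mul, hc]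
      ring
    rw [h2]
    apply sum_le_sum
    intro x hx
    apply sum_le_sum
    intro y hy
    obtain ⟨p1, p2⟩ := pair_est N hN0 t K ht hK hNK hNK2 (α x) (β y) (hα x hx) (hβ y hy)
    have hxy := hab x hx y hy
    have hexp := Real.exp_pos (-t)
    rw [hw]
    simp only
    split_ifs at hxy ⊢ with h
    · have := p2 hxy
      have h3 := mul_le_mul_of_nonneg_left this hL
      rw [← hM, ← hP] at h3
      linarith
    · have := p1 hxy
      rw [← hM, ← hP] at this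
      have h4 : 0 ≤ P * (L * Real.exp (-t)) := by positivity
      linarith
  have hex : ∃ ε : ι × Fin N → Bool, c ≤ ∑ x ∈ S, ∑ y ∈ S,
      w x y * (tr M (RP (sc N t (α x)) ε) * tr M (RP (sc N t (β y)) ε)) := by
    have h1 : ∑ _ε : ι × Fin N → Bool, c ≤ ∑ ε : ι × Fin N → Bool, ∑ x ∈ S, ∑ y ∈ S,
        w x y * (tr M (RP (sc N t (α x)) ε) * tr M (RP (sc N t (β y)) ε)) := by
      refine le_trans (le_of_eq ?_) havg
      rw [sum_const, nsmul_eq_mul, card_univ, Fintype.card_fun, Fintype.card_bool, hP]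
      push_cast
      ring
    obtain ⟨ε, -, hε⟩ := exists_le_of_sum_le (s := univ) ⟨fun _ => true, mem_univ _⟩ h1
    exact ⟨ε, hε⟩
  obtain ⟨ε, hε⟩ := hex
  have hα1 : ∀ x ∈ S, ∀ j, |sc N t (α x) j| ≤ 1 := fun x hx j =>
    (sc_abs N hN0 t K ht (α x) (hα x hx) hNK j).trans (by norm_num)
  have hβ1 : ∀ x ∈ S, ∀ j, |sc N t (β x) j| ≤ 1 := fun x hx j =>
    (sc_abs N hN0 t K ht (β x) (hβ x hx) hNK j).trans (by norm_num)
  obtain ⟨X, hX, Y, hY, hXY⟩ := extreme S w M hM0.le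
    (fun x => tr M (RP (sc N t (α x)) ε)) (fun y => tr M (RP (sc N t (β y)) ε))
    (fun x hx => tr_nonneg (RP_nonneg (hα1 x hx) ε)) (fun x _ => tr_le hM0.le)
    (fun x hx => tr_nonneg (RP_nonneg (hβ1 x hx) ε)) (fun x _ => tr_le hM0.le)
  exact ⟨X, hX, Y, hY, hε.trans hXY⟩

end Pool.Agent.H86.Energy
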