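import Pool.Agent.H86.Energy.Eig
import Pool.Agent.H974R3.RankFin

set_option autoImplicit false
set_option linter.unusedSectionVars false

/-!
# The energy of induced subgraphs, and short factorisations
-/

namespace Pool.Agent.H86.Energy

open Matrix Finset Module
open Pool.Agent.H974R3.RC (KS mem_KS rho rho_add)

variable {V : Type} [Fintype V] [DecidableEq V]

/-- the energy bound -/
lemma energy {B : Matrix V V ℝ} {l : V → ℝ} {v : V → V → ℝ} (h : Eig B l v) (W : Finset V)
    (hd : ∀ x, B x x = 0) (hW : ∀ x y, (B x y) ^ 2 ≤ if x ∈ W ∧ y ∈ W then 1 else 0)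
    (s : ℝ) (hs : 0 ≤ s) (p ρ : ℕ) (hp : (univ.filter (fun i => l i < -s)).card ≤ p)
    (hρ : (univ.filter (fun i => l i ≠ 0)).card ≤ ρ) :
    ∑ i, |l i| ≤ 2 * (s * ρ + Real.sqrt (min p ρ : ℕ) * W.card) := by
  have htr : ∑ i, l i = 0 := by
    rw [← h.trace]
    exact sum_eq_zero fun x _ => hd x
  set I := univ.filter (fun i => l i < -s) with hI
  set R := univ.filter (fun i => l i ≠ 0) with hR
  have hIR : I.card ≤ min p ρ := by
    rw [Nat.le_min]
    refine ⟨hp, le_trans (card_le_card ?_) hρ⟩
    intro i hi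
    rw [hI, mem_filter] at hi
    rw [hR, mem_filter]
    refine ⟨mem_univ _, ?_⟩
    intro h0
    linarith [hi.2]
  -- pointwise bound
  have hpt : ∀ i, |l i| ≤ l i + 2 * ((if l i ≠ 0 then s else 0) + if l i < -s then |l i| else 0) := by
    intro i
    by_cases h0 : l i = 0
    · rw [if_neg (by simpa using h0), h0]
      simp
    · rw [if_pos h0]
      by_cases h1 : l i < -s
      · rw [if_pos h1]
        have h2 : |l i| = - l i := abs_of_neg (by linarith)
        rw [h2]
        linarith
      · rw [if_neg h1]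
        push Not at h1
        rcases le_total 0 (l i) with h2 | h2
        · rw [abs_of_nonneg h2]
          linarith
        · rw [abs_of_nonpos h2]
          linarith
  have hsum : ∑ i, |l i| ≤ 2 * (s * R.card + ∑ i ∈ I, |l i|) := by
    calc ∑ i, |l i| ≤ ∑ i, (l i + 2 * ((if l i ≠ 0 then s else 0) + if l i < -s then |l i| else 0)) :=
          sum_le_sum fun i _ => hpt i
      _ = 2 * (s * R.card + ∑ i ∈ I, |l i|) := by
          rw [sum_add_distrib, htr, ← mul_sum, sum_add_distrib, ← sum_filter, ← sum_filter,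
            sum_const, nsmul_eq_mul]
          ring
  have hcs : ∑ i ∈ I, |l i| ≤ Real.sqrt (min p ρ : ℕ) * W.card := by
    have h1 : (∑ i ∈ I, |l i|) ^ 2 ≤ (I.card : ℝ) * ∑ i ∈ I, |l i| ^ 2 := sq_sum_le_card_mul_sum_sq
    have h2 : ∑ i ∈ I, |l i| ^ 2 ≤ (W.card : ℝ) ^ 2 := by
      calc ∑ i ∈ I, |l i| ^ 2 ≤ ∑ i, |l i| ^ 2 :=
            sum_le_sum_of_subset_of_nonneg (subset_univ _) fun i _ _ => sq_nonneg _
        _ = ∑ i, (l i) ^ 2 := sum_congr rfl fun i _ => sq_abs _
        _ = ∑ x, ∑ y, (B x y) ^ 2 := h.frob.symm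
        _ ≤ ∑ x, ∑ y, (if x ∈ W ∧ y ∈ W then (1 : ℝ) else 0) :=
            sum_le_sum fun x _ => sum_le_sum fun y _ => hW x y
        _ = (W.card : ℝ) ^ 2 := by
            have h3 : ∀ x y, (if x ∈ W ∧ y ∈ W then (1 : ℝ) else 0) =
                (if x ∈ W then 1 else 0) * (if y ∈ W then 1 else 0) := by
              intro x y
              by_cases hx : x ∈ W <;> by_cases hy : y ∈ W <;> simp [hx, hy]
            rw [sum_congr rfl fun x _ => sum_congr rfl fun y _ => h3 x y]
            rw [← sum_mul_sum]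
            simp
            ring
    have h3 : (∑ i ∈ I, |l i|) ^ 2 ≤ (Real.sqrt (min p ρ : ℕ) * W.card) ^ 2 := by
      rw [mul_pow, Real.sq_sqrt (Nat.cast_nonneg _)]
      refine h1.trans ?_
      apply mul_le_mul _ h2 (sum_nonneg fun i _ => sq_nonneg _) (Nat.cast_nonneg _)
      exact_mod_cast hIR
    exact abs_le_of_sq_le_sq' h3 (by positivity) |>.2
  have hRr : (R.card : ℝ) ≤ ρ := by exact_mod_cast hρ
  have h4 : s * R.card ≤ s * ρ := mul_le_mul_of_nonneg_left hRr hs
  linarith

section graph

variable (G : SimpleGraph V) [DecidableRel G.Adj]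

lemma mulVec_restr (σ : ℝ) (W : Finset V) (x : V → ℝ) (u : V) :
    (restr (σ • G.adjMatrix ℝ) W *ᵥ x) u =
      if u ∈ W then σ * ∑ w, (if G.Adj u w then (if w ∈ W then x w else 0) else 0) else 0 := by
  simp only [mulVec, dotProduct]
  by_cases hu : u ∈ W
  · rw [if_pos hu, mul_sum]
    apply sum_congr rfl
    intro w _
    unfold restr
    simp only [hu, true_and, Matrix.smul_apply, SimpleGraph.adjMatrix_apply, smul_eq_mul]
    split_ifs <;> simp
  · rw [if_neg hu]
    apply sum_eq_zero
    intro w _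
    unfold restr
    simp [hu]

/-- the linear map restricting to `W` -/
def resW (W : Finset V) : (V → ℝ) →ₗ[ℝ] (W → ℝ) where
  toFun := fun c i => c (i : V)
  map_add' := fun _ _ => rfl
  map_smul' := fun _ _ => rfl

lemma rank_restr_le (σ : ℝ) (W : Finset V) : (restr (σ • G.adjMatrix ℝ) W).rank ≤ rho G W := by
  set M := restr (σ • G.adjMatrix ℝ) W with hM
  have h1 := LinearMap.finrank_range_add_finrank_ker M.mulVecLin
  rw [finrank_fintype_fun_eq_card] at h1
  have h1' : M.rank = finrank ℝ (LinearMap.range M.mulVecLin) := rfl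
  have h2 := LinearMap.finrank_range_add_finrank_ker (resW (V := V) W)
  rw [finrank_fintype_fun_eq_card] at h2
  have h3 : finrank ℝ (LinearMap.range (resW (V := V) W)) ≤ W.card := by
    have := Submodule.finrank_le (LinearMap.range (resW (V := V) W))
    rw [finrank_fintype_fun_eq_card, Fintype.card_coe] at this
    exact this
  have h4 : KS G W ⊓ LinearMap.ker (resW (V := V) W) = ⊥ := by
    rw [eq_bot_iff]
    rintro x ⟨hx1, hx2⟩
    rw [SetLike.mem_coe, mem_KS] at hx1
    rw [Submodule.mem_bot]
    ext u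
    by_cases hu : u ∈ W
    · exact congrFun (LinearMap.mem_ker.1 hx2) ⟨u, hu⟩
    · exact hx1.1 u hu
  have h5 : KS G W ⊔ LinearMap.ker (resW (V := V) W) ≤ LinearMap.ker M.mulVecLin := by
    rw [sup_le_iff]
    constructor
    · intro x hx
      rw [mem_KS] at hx
      rw [LinearMap.mem_ker, mulVecLin_apply]
      ext u
      rw [hM, mulVec_restr]
      split_ifs with hu
      · have h6 : ∑ w, (if G.Adj u w then (if w ∈ W then x w else 0) else 0) =
            ∑ w, (if G.Adj u w then x w else 0) := by
          apply sum_congr rfl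
          intro w _
          by_cases hw : w ∈ W
          · simp [hw]
          · simp [hw, hx.1 w hw]
        rw [h6, hx.2 u hu]
        simp
      · rfl
    · intro x hx
      rw [LinearMap.mem_ker] at hx
      rw [LinearMap.mem_ker, mulVecLin_apply]
      ext u
      rw [hM, mulVec_restr]
      split_ifs with hu
      · have h6 : ∑ w, (if G.Adj u w then (if w ∈ W then x w else 0) else 0) = 0 := by
          apply sum_eq_zero
          intro w _
          by_cases hw : w ∈ W
          · have : x w = 0 := congrFun hx ⟨w, hw⟩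
            simp [this]
          · simp [hw]
        rw [h6]
        simp
      · rfl
  have h6 := Submodule.finrank_sup_add_finrank_inf_eq (KS G W) (LinearMap.ker (resW (V := V) W))
  rw [h4, finrank_bot, add_zero] at h6
  have h7 := Submodule.finrank_mono h5
  have h8 := rho_add G W
  omega

/-- **Short factorisations.** If `σ A` has at most `p` eigenvalues below `-s` (in the sense of
subspaces) then on every set `W` the matrix `-A` factors through short vectors. -/
theorem rep (σ : ℝ) (hσ : σ * σ = 1) (s : ℝ) (hs : 0 ≤ s) (p : ℕ)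
    (hN : NegS (σ • G.adjMatrix ℝ) s p) (W : Finset V) :
    ∃ α β : V → V → ℝ,
      (∀ x ∈ W, ∀ y ∈ W, ∑ i, α x i * β y i = if G.Adj x y then -1 else 0) ∧
      (∀ x, ∑ i, (β x i) ^ 2 = ∑ i, (α x i) ^ 2) ∧
      ∑ x ∈ W, ∑ i, (α x i) ^ 2 ≤
        2 * (s * rho G W + Real.sqrt (min p (rho G W) : ℕ) * W.card) := by
  classical
  set B := restr (σ • G.adjMatrix ℝ) W with hB
  have hherm : (σ • G.adjMatrix ℝ).IsHermitian := by
    ext x y
    rw [conjTranspose_apply, star_trivial, Matrix.smul_apply, Matrix.smul_apply,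
      SimpleGraph.adjMatrix_apply, SimpleGraph.adjMatrix_apply]
    simp only [G.adj_comm y x]
  have hBh : B.IsHermitian := restr_herm hherm W
  obtain ⟨l, v, hE, hl⟩ : ∃ (l : V → ℝ) (v : V → V → ℝ), Eig B l v ∧ l = hBh.eigenvalues :=
    ⟨_, _, exists_eig hBh, rfl⟩
  have hcount := count_of_negS hE s p (hN.restr hs W)
  have hrank : (univ.filter (fun i => l i ≠ 0)).card ≤ rho G W := by
    have h1 := hBh.rank_eq_card_non_zero_eigs
    rw [Fintype.card_subtype, ← hl] at h1
    rw [← h1]
    exact rank_restr_le G σ W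
  have hσa : σ ^ 2 = 1 := by rw [sq]; exact hσ
  have hen := energy hE W (by
      intro x
      rw [hB]
      unfold restr
      simp) (by
      intro x y
      rw [hB]
      unfold restr
      by_cases hxy : x ∈ W ∧ y ∈ W
      · rw [if_pos hxy, if_pos hxy, Matrix.smul_apply, SimpleGraph.adjMatrix_apply, smul_eq_mul,
          mul_pow, hσa]
        split_ifs <;> simp
      · rw [if_neg hxy, if_neg hxy]
        simp) s hs p (rho G W) hcount hrank
  have hsq : ∀ i, Real.sqrt |l i| * Real.sqrt |l i| = |l i| := fun i =>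
    Real.mul_self_sqrt (abs_nonneg _)
  refine ⟨fun x i => Real.sqrt |l i| * v i x,
    fun y i => -(σ * ((if 0 ≤ l i then 1 else -1) * (Real.sqrt |l i| * v i y))), ?_, ?_, ?_⟩
  · intro x hx y hy
    have h1 : ∀ i, Real.sqrt |l i| * v i x *
        -(σ * ((if 0 ≤ l i then 1 else -1) * (Real.sqrt |l i| * v i y))) =
        -σ * (l i * (v i x * v i y)) := by
      intro i
      have h2 : (if 0 ≤ l i then (1 : ℝ) else -1) * |l i| = l i := by
        split_ifs with h3
        · rw [abs_of_nonneg h3, one_mul]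
        · rw [abs_of_neg (by linarith)]
          ring
      calc _ = -σ * (((if 0 ≤ l i then 1 else -1) * (Real.sqrt |l i| * Real.sqrt |l i|)) *
            (v i x * v i y)) := by ring
        _ = _ := by rw [hsq, h2]
    rw [sum_congr rfl fun i _ => h1 i, ← mul_sum, ← hE.ent, hB]
    unfold restr
    rw [if_pos ⟨hx, hy⟩, Matrix.smul_apply, SimpleGraph.adjMatrix_apply, smul_eq_mul]
    split_ifs
    · rw [mul_one, neg_mul, hσ]
    · simp
  · intro x
    apply sum_congr rfl
    intro i _
    have h3 : (if 0 ≤ l i then (1 : ℝ) else -1) ^ 2 = 1 := by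
      split_ifs <;> norm_num
    calc _ = σ ^ 2 * (if 0 ≤ l i then (1 : ℝ) else -1) ^ 2 * (Real.sqrt |l i| * v i x) ^ 2 := by ring
      _ = _ := by rw [h3, hσa]; ring
  · refine le_trans ?_ hen
    calc ∑ x ∈ W, ∑ i, (Real.sqrt |l i| * v i x) ^ 2 ≤ ∑ x, ∑ i, (Real.sqrt |l i| * v i x) ^ 2 :=
          sum_le_sum_of_subset_of_nonneg (subset_univ _) fun x _ _ =>
            sum_nonneg fun i _ => sq_nonneg _
      _ = ∑ i, |l i| := by
          rw [sum_comm]
          apply sum_congr rfl
          intro i _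
          have h1 : ∀ x, (Real.sqrt |l i| * v i x) ^ 2 = |l i| * (v i x * v i x) := by
            intro x
            calc _ = (Real.sqrt |l i| * Real.sqrt |l i|) * (v i x * v i x) := by ring
              _ = _ := by rw [hsq]
          rw [sum_congr rfl fun x _ => h1 x, ← mul_sum, hE.orth, if_pos rfl, mul_one]

end graph

end Pool.Agent.H86.Energy
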