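import Mathlib

set_option autoImplicit false
set_option linter.unusedSectionVars false

/-!
# Riesz products and large rectangles with few ones
-/

namespace Pool.Agent.H86.Energy

open Finset

/-- the sign of a boolean -/
def sg (b : Bool) : ℝ := if b then 1 else -1

section riesz

variable {J : Type} [Fintype J] [DecidableEq J]

/-- Riesz product -/
noncomputable def RP (a : J → ℝ) (ε : J → Bool) : ℝ := ∏ j, (1 + a j * sg (ε j))

lemma sum_prod_bool (g : J → Bool → ℝ) :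
    ∑ ε : J → Bool, ∏ j, g j (ε j) = ∏ j, (g j true + g j false) := by
  have h := Finset.sum_prod_piFinset (univ : Finset Bool) g
  rw [Fintype.piFinset_univ] at h
  rw [h]
  exact prod_congr rfl fun j _ => Fintype.sum_bool _

lemma RP_nonneg {a : J → ℝ} (ha : ∀ j, |a j| ≤ 1) (ε : J → Bool) : 0 ≤ RP a ε := by
  unfold RP
  apply prod_nonneg
  intro j _
  have h1 := abs_le.1 (ha j)
  unfold sg
  split_ifs <;> linarith

lemma E2 (a b : J → ℝ) :
    ∑ ε : J → Bool, RP a ε * RP b ε = 2 ^ Fintype.card J * ∏ j, (1 + a j * b j) := by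
  have h1 : ∀ ε : J → Bool, RP a ε * RP b ε =
      ∏ j, ((1 + a j * sg (ε j)) * (1 + b j * sg (ε j))) := by
    intro ε
    unfold RP
    rw [prod_mul_distrib]
  rw [sum_congr rfl fun ε _ => h1 ε]
  rw [sum_prod_bool (fun j e => (1 + a j * sg e) * (1 + b j * sg e))]
  rw [← Finset.card_univ, ← prod_const, ← prod_mul_distrib]
  apply prod_congr rfl
  intro j _
  simp only [sg, if_true, Bool.false_eq_true, if_false]
  ring

lemma E3 (a b : J → ℝ) :
    ∑ ε : J → Bool, (RP a ε) ^ 2 * RP b ε =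
      2 ^ Fintype.card J * ∏ j, (1 + a j ^ 2 + 2 * (a j * b j)) := by
  have h1 : ∀ ε : J → Bool, (RP a ε) ^ 2 * RP b ε =
      ∏ j, ((1 + a j * sg (ε j)) ^ 2 * (1 + b j * sg (ε j))) := by
    intro ε
    unfold RP
    rw [prod_mul_distrib, prod_pow]
  rw [sum_congr rfl fun ε _ => h1 ε]
  rw [sum_prod_bool (fun j e => (1 + a j * sg e) ^ 2 * (1 + b j * sg e))]
  rw [← Finset.card_univ, ← prod_const, ← prod_mul_distrib]
  apply prod_congr rfl
  intro j _
  simp only [sg, if_true, Bool.false_eq_true, if_false]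
  ring

lemma prod_le_exp (u : J → ℝ) (h : ∀ j, 0 ≤ 1 + u j) : ∏ j, (1 + u j) ≤ Real.exp (∑ j, u j) := by
  rw [Real.exp_sum]
  apply prod_le_prod
  · intro j _; exact h j
  · intro j _
    have := Real.add_one_le_exp (u j)
    linarith

lemma exp_le_prod (u : J → ℝ) (h : ∀ j, |u j| ≤ 1 / 2) :
    Real.exp (∑ j, u j - 2 * ∑ j, (u j) ^ 2) ≤ ∏ j, (1 + u j) := by
  rw [mul_sum, ← sum_sub_distrib, Real.exp_sum]
  apply prod_le_prod
  · intro j _; exact (Real.exp_pos _).le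
  · intro j _
    have h1 := abs_le.1 (h j)
    have h2 : 0 < 1 + u j := by linarith
    have h3 := Real.one_sub_inv_le_log_of_pos h2
    have h4 : u j - 2 * (u j) ^ 2 ≤ 1 - (1 + u j)⁻¹ := by
      have h5 : 1 - (1 + u j)⁻¹ = u j / (1 + u j) := by
        field_simp
        ring
      rw [h5, le_div_iff₀ h2]
      nlinarith [sq_nonneg (u j)]
    rw [← Real.le_log_iff_exp_le h2]
    linarith

end riesz

/-- truncation -/
noncomputable def tr (M x : ℝ) : ℝ := if x ≤ M then x else 0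

lemma tr_nonneg {M x : ℝ} (hx : 0 ≤ x) : 0 ≤ tr M x := by
  unfold tr; split_ifs <;> simp [hx]

lemma tr_le {M x : ℝ} (hM : 0 ≤ M) : tr M x ≤ M := by
  unfold tr; split_ifs with h
  · exact h
  · exact hM

lemma tr_le_self {M x : ℝ} (hx : 0 ≤ x) : tr M x ≤ x := by
  unfold tr; split_ifs <;> simp [hx]

lemma tr_mul_ge {M x y : ℝ} (hM : 0 < M) (hx : 0 ≤ x) (hy : 0 ≤ y) :
    x * y - x ^ 2 * y / M - y ^ 2 * x / M ≤ tr M x * tr M y := by
  have hxy : 0 ≤ x * y := mul_nonneg hx hy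
  have h1 : 0 ≤ x ^ 2 * y / M := by positivity
  have h2 : 0 ≤ y ^ 2 * x / M := by positivity
  unfold tr
  split_ifs with ha hb hb
  · linarith
  · push Not at hb
    have : x * y ≤ y ^ 2 * x / M := by
      rw [le_div_iff₀ hM]
      have : x * y * M ≤ x * y * y := mul_le_mul_of_nonneg_left hb.le hxy
      nlinarith
    linarith
  · push Not at ha
    have : x * y ≤ x ^ 2 * y / M := by
      rw [le_div_iff₀ hM]
      have : x * y * M ≤ x * y * x := mul_le_mul_of_nonneg_left ha.le hxy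
      nlinarith
    linarith
  · push Not at ha
    have : x * y ≤ x ^ 2 * y / M := by
      rw [le_div_iff₀ hM]
      have : x * y * M ≤ x * y * x := mul_le_mul_of_nonneg_left ha.le hxy
      nlinarith
    linarith

/-- passing from weights in `[0, M]` to sets -/
lemma extreme {V : Type} [DecidableEq V] (S : Finset V) (w : V → V → ℝ) (M : ℝ) (hM : 0 ≤ M)
    (f g : V → ℝ) (hf0 : ∀ x ∈ S, 0 ≤ f x) (hfM : ∀ x ∈ S, f x ≤ M)
    (hg0 : ∀ x ∈ S, 0 ≤ g x) (hgM : ∀ x ∈ S, g x ≤ M) :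
    ∃ X ⊆ S, ∃ Y ⊆ S, ∑ x ∈ S, ∑ y ∈ S, w x y * (f x * g y) ≤
      M ^ 2 * ∑ x ∈ X, ∑ y ∈ Y, w x y := by
  classical
  have step : ∀ (h : V → ℝ) (p : V → ℝ), (∀ x ∈ S, 0 ≤ p x) → (∀ x ∈ S, p x ≤ M) →
      ∑ x ∈ S, p x * h x ≤ M * ∑ x ∈ S.filter (fun x => 0 < h x), h x := by
    intro h p hp0 hpM
    rw [mul_sum, sum_filter]
    apply sum_le_sum
    intro x hx
    split_ifs with h1
    · exact mul_le_mul_of_nonneg_right (hpM x hx) h1.le
    · push Not at h1
      exact mul_nonpos_of_nonneg_of_nonpos (hp0 x hx) h1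
  set h1 : V → ℝ := fun x => ∑ y ∈ S, w x y * g y with hh1
  set X := S.filter (fun x => 0 < h1 x) with hX
  set h2 : V → ℝ := fun y => ∑ x ∈ X, w x y with hh2
  set Y := S.filter (fun y => 0 < h2 y) with hY
  refine ⟨X, filter_subset _ _, Y, filter_subset _ _, ?_⟩
  have e1 : ∑ x ∈ S, ∑ y ∈ S, w x y * (f x * g y) = ∑ x ∈ S, f x * h1 x := by
    apply sum_congr rfl
    intro x _
    rw [hh1]
    simp only
    rw [mul_sum]
    exact sum_congr rfl fun y _ => by ring
  have e2 : ∑ x ∈ X, h1 x = ∑ y ∈ S, g y * h2 y := by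
    rw [hh1, hh2]
    simp only
    rw [sum_comm]
    apply sum_congr rfl
    intro y _
    rw [mul_sum]
    exact sum_congr rfl fun x _ => by ring
  calc ∑ x ∈ S, ∑ y ∈ S, w x y * (f x * g y) = ∑ x ∈ S, f x * h1 x := e1
    _ ≤ M * ∑ x ∈ X, h1 x := step h1 f hf0 hfM
    _ = M * ∑ y ∈ S, g y * h2 y := by rw [e2]
    _ ≤ M * (M * ∑ y ∈ Y, h2 y) := mul_le_mul_of_nonneg_left (step h2 g hg0 hgM) hM
    _ = M ^ 2 * ∑ x ∈ X, ∑ y ∈ Y, w x y := by
        rw [hh2]
        simp only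
        rw [sum_comm]
        ring

end Pool.Agent.H86.Energy
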