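import Pool.Agent.H86.Energy.Rep
import Pool.Agent.H86.Energy.Rect

set_option autoImplicit false
set_option linter.unusedSectionVars false

/-!
# Many zeros, and large rectangles of zeros
-/

namespace Pool.Agent.H86.Energy

open Matrix Finset Module
open Pool.Agent.H974R3.RC (RW row_mem co_row_mem finrank_RW pure_of rho rho_mono rho_univ rho_halve)

variable {V : Type} [Fintype V] [DecidableEq V]

variable (G : SimpleGraph V) [DecidableRel G.Adj]

/-- the number of nonadjacent ordered pairs in `S` (pairs `(x, x)` included) -/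
def zer (S : Finset V) : ℝ := ∑ x ∈ S, ∑ y ∈ S, if G.Adj x y then (0 : ℝ) else 1

lemma zer_ge (S : Finset V) : (S.card : ℝ) ^ 2 ≤ ((G.adjMatrix ℝ).rank + 1 : ℕ) * zer G S := by
  classical
  set C : Matrix V V ℝ := fun x y => if x ∈ S ∧ y ∈ S then (1 - G.adjMatrix ℝ x y) else 0 with hC
  have hCh : C.IsHermitian := by
    ext x y
    rw [conjTranspose_apply, star_trivial, hC]
    simp only [SimpleGraph.adjMatrix_apply, G.adj_comm y x]
    by_cases hx : x ∈ S <;> by_cases hy : y ∈ S <;> simp [hx, hy]
  have hrank : C.rank ≤ (G.adjMatrix ℝ).rank + 1 := by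
    rw [Matrix.rank_eq_finrank_span_row]
    have h1 : Submodule.span ℝ (Set.range C.row) ≤ (RW G).map (cut S) := by
      rw [Submodule.span_le]
      rintro _ ⟨x, rfl⟩
      by_cases hx : x ∈ S
      · refine ⟨_, co_row_mem G x, ?_⟩
        ext y
        show (if y ∈ S then (1 - (G.adjMatrix ℝ) x y) else 0) = C x y
        rw [hC]
        simp only [hx, true_and]
      · have : C.row x = 0 := by
          ext y
          show C x y = 0
          rw [hC]
          simp [hx]
        rw [this]
        exact Submodule.zero_mem _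
    exact (Submodule.finrank_mono h1).trans
      ((Submodule.finrank_map_le (cut S) (RW G)).trans (finrank_RW G))
  obtain ⟨l, v, hE, hl⟩ : ∃ (l : V → ℝ) (v : V → V → ℝ), Eig C l v ∧ l = hCh.eigenvalues :=
    ⟨_, _, exists_eig hCh, rfl⟩
  have hcard : (univ.filter (fun i => l i ≠ 0)).card ≤ (G.adjMatrix ℝ).rank + 1 := by
    have h1 := hCh.rank_eq_card_non_zero_eigs
    rw [Fintype.card_subtype, ← hl] at h1
    rw [← h1]
    exact hrank
  have htr : ∑ i, l i = S.card := by
    rw [← hE.trace]
    have : ∀ x, C x x = if x ∈ S then (1 : ℝ) else 0 := by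
      intro x
      rw [hC]
      by_cases hx : x ∈ S <;> simp [hx]
    rw [sum_congr rfl fun x _ => this x]
    simp
  have hfr : ∑ i, (l i) ^ 2 = zer G S := by
    rw [← hE.frob]
    unfold zer
    have h1 : ∀ x y, (C x y) ^ 2 =
        if x ∈ S then (if y ∈ S then (if G.Adj x y then (0 : ℝ) else 1) else 0) else 0 := by
      intro x y
      rw [hC]
      simp only [SimpleGraph.adjMatrix_apply]
      by_cases hx : x ∈ S <;> by_cases hy : y ∈ S <;> by_cases hxy : G.Adj x y <;>
        simp [hx, hy, hxy]
    rw [sum_congr rfl fun x _ => sum_congr rfl fun y _ => h1 x y]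
    have h2 : ∀ x, (∑ y, if x ∈ S then (if y ∈ S then (if G.Adj x y then (0 : ℝ) else 1) else 0)
        else 0) = if x ∈ S then ∑ y ∈ S, (if G.Adj x y then (0 : ℝ) else 1) else 0 := by
      intro x
      by_cases hx : x ∈ S
      · simp only [hx, if_true]
        rw [sum_ite_mem, univ_inter]
      · simp [hx]
    rw [sum_congr rfl fun x _ => h2 x, sum_ite_mem, univ_inter]
  have h1 : ∑ i, l i = ∑ i ∈ univ.filter (fun i => l i ≠ 0), l i := by
    symm
    apply sum_filter_ne_zero
  have h2 : (∑ i ∈ univ.filter (fun i => l i ≠ 0), l i) ^ 2 ≤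
      ((univ.filter (fun i => l i ≠ 0)).card : ℝ) * ∑ i ∈ univ.filter (fun i => l i ≠ 0), (l i) ^ 2 :=
    sq_sum_le_card_mul_sum_sq
  rw [← h1, htr] at h2
  refine h2.trans ?_
  apply mul_le_mul
  · exact_mod_cast hcard
  · rw [← hfr]
    exact sum_le_sum_of_subset_of_nonneg (subset_univ _) fun i _ _ => sq_nonneg _
  · exact sum_nonneg fun i _ => sq_nonneg _
  · exact Nat.cast_nonneg _

end Pool.Agent.H86.Energy
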